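import Pool.Agent.ESF.Const

/-!
# ESF.Avg: the logarithmic average of `S k / k`
-/

namespace Pool.Agent.ESF

open Finset Filter

/-- The first Mertens upper bound. -/
theorem mertens (y : ℕ) (hy : 1 ≤ y) :
    ∑ q ∈ Nat.primesLE y, Real.log q / q ≤ Real.log y + Real.log 4 := by
  have hyr : (0 : ℝ) < y := by exact_mod_cast hy
  have h1 : (y : ℝ) * ∑ q ∈ Nat.primesLE y, Real.log q / q - ∑ q ∈ Nat.primesLE y, Real.log q ≤
      Real.log (y.factorial) := by
    rw [Real.log_nat_eq_sum_factorization, Finset.mul_sum, ← Finset.sum_sub_distrib,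
      Finsupp.sum]
    have hsub : ∑ q ∈ Nat.primesLE y, ((y : ℝ) * (Real.log q / q) - Real.log q) ≤
        ∑ q ∈ Nat.primesLE y, ((y.factorial.factorization q : ℕ) : ℝ) * Real.log q := by
      apply Finset.sum_le_sum
      intro q hq
      have hqp : q.Prime := (Nat.mem_primesLE.mp hq).2
      have hlq : 0 ≤ Real.log q := Real.log_natCast_nonneg q
      have hqr : (0 : ℝ) < q := by exact_mod_cast hqp.pos
      have h2 : (y / q : ℕ) ≤ y.factorial.factorization q := by
        rw [Nat.factorization_factorial hqp (Nat.lt_succ_of_lt (Nat.lt_add_one (Nat.log q y)))]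
        have : 1 ∈ Finset.Ico 1 (Nat.log q y + 1 + 1) := by simp
        calc y / q = y / q ^ 1 := by rw [pow_one]
          _ ≤ _ := Finset.single_le_sum (f := fun i => y / q ^ i) (fun i _ => Nat.zero_le _) this
      have h3 : (y : ℝ) / q - 1 ≤ ((y / q : ℕ) : ℝ) := by
        have := Nat.lt_floor_add_one ((y : ℝ) / q)
        rw [Nat.floor_div_natCast, Nat.floor_natCast] at this
        linarith
      have h4 : ((y / q : ℕ) : ℝ) ≤ ((y.factorial.factorization q : ℕ) : ℝ) := by
        exact_mod_cast h2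
      calc (y : ℝ) * (Real.log q / q) - Real.log q = ((y : ℝ) / q - 1) * Real.log q := by
            field_simp
        _ ≤ _ := mul_le_mul_of_nonneg_right (h3.trans h4) hlq
    refine hsub.trans ?_
    have hss : y.factorial.factorization.support ⊆ Nat.primesLE y := by
      intro q hq
      rw [Nat.support_factorization] at hq
      have hqp := Nat.prime_of_mem_primeFactors hq
      have hqd := Nat.dvd_of_mem_primeFactors hq
      rw [Nat.mem_primesLE]
      exact ⟨(hqp.dvd_factorial).mp hqd, hqp⟩
    rw [Finset.sum_subset hss]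
    intro q _ hq
    rw [Finsupp.notMem_support_iff] at hq
    simp [hq]
  have h2 : ∑ q ∈ Nat.primesLE y, Real.log q ≤ Real.log 4 * y := by
    rw [← Chebyshev.theta_eq_sum_primesLE_log]
    exact Chebyshev.theta_le_log4_mul_x (by positivity)
  have h3 : Real.log (y.factorial) ≤ y * Real.log y := by
    have := Nat.factorial_le_pow y
    calc Real.log (y.factorial) ≤ Real.log ((y : ℝ) ^ y) := by
          apply Real.log_le_log
          · exact_mod_cast Nat.factorial_pos y
          · exact_mod_cast this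
      _ = _ := by rw [Real.log_pow]
  have h4 : (y : ℝ) * ∑ q ∈ Nat.primesLE y, Real.log q / q ≤ y * (Real.log y + Real.log 4) := by
    nlinarith
  exact le_of_mul_le_mul_left h4 hyr

theorem one_prime {q : ℕ} (hq : 2 ≤ q) (X : ℕ) :
    ∑ k ∈ Icc q X, phi q k * om k ≤ 1 / q * cs := by
  have hq0 : (0:ℝ) < q := by exact_mod_cast (by omega : 0 < q)
  calc ∑ k ∈ Icc q X, phi q k * om k ≤ ∑ k ∈ Ico q (q * (X + 1)), phi q k * om k := by
        refine Finset.sum_le_sum_of_subset_of_nonneg ?_ ?_
        · intro k hk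
          rw [mem_Icc] at hk
          rw [mem_Ico]
          refine ⟨hk.1, ?_⟩
          nlinarith
        · intro k hk _
          rw [mem_Ico] at hk
          exact mul_nonneg (phi_nonneg q k) (om_nonneg (by omega))
    _ ≤ 1 / q * ∑ a ∈ Icc 1 X, bb a := blocks hq X
    _ ≤ _ := mul_le_mul_of_nonneg_left (sum_bb_le X) (by positivity)

theorem avg (X : ℕ) (hX : 1 ≤ X) :
    ∑ k ∈ Icc 1 X, S k * om k ≤ cs * (Real.log X + Real.log 4) := by
  have h1 : ∑ k ∈ Icc 1 X, S k * om k =
      ∑ q ∈ Nat.primesLE X, Real.log q * ∑ k ∈ Icc q X, phi q k * om k := by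
    have e1 : ∀ k, S k * om k = ∑ q ∈ Nat.primesLE k, Real.log q * (phi q k * om k) := by
      intro k
      unfold S
      rw [Finset.sum_mul]
      refine Finset.sum_congr rfl fun q _ => by ring
    simp only [e1, Finset.mul_sum]
    refine Finset.sum_comm' fun k q => ?_
    simp only [mem_Icc, Nat.mem_primesLE]
    constructor
    · rintro ⟨⟨h1, h2⟩, h3, h4⟩
      exact ⟨⟨h3, h2⟩, by omega, h4⟩
    · rintro ⟨⟨h1, h2⟩, h3, h4⟩
      have := h4.one_lt
      exact ⟨⟨by omega, h2⟩, h1, h4⟩
  rw [h1]
  calc _ ≤ ∑ q ∈ Nat.primesLE X, Real.log q * (1 / q * cs) := by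
        refine Finset.sum_le_sum fun q hq => ?_
        exact mul_le_mul_of_nonneg_left (one_prime (Nat.mem_primesLE.mp hq).2.two_le X)
          (Real.log_natCast_nonneg q)
    _ = cs * ∑ q ∈ Nat.primesLE X, Real.log q / q := by
        rw [Finset.mul_sum]
        refine Finset.sum_congr rfl fun q _ => by ring
    _ ≤ _ := mul_le_mul_of_nonneg_left (mertens X hX) cs_nonneg

end Pool.Agent.ESF
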