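import Pool.Agent.ESF.Defs

/-!
# ESF.Block: the average of `phi` over a block
-/

namespace Pool.Agent.ESF

open Finset

/-- the weight `1/k - 1/(k+1)` -/
noncomputable def om (k : ℕ) : ℝ := 1 / (k:ℝ) - 1 / ((k:ℝ) + 1)

theorem om_nonneg {k : ℕ} (hk : 1 ≤ k) : 0 ≤ om k := by
  unfold om
  have : (0:ℝ) < k := by exact_mod_cast hk
  have h := one_div_le_one_div_of_le this (show (k:ℝ) ≤ (k:ℝ) + 1 by linarith)
  linarith

/-- `b a = 2 log (1 + 1/(2a)) - 1/(a+1)` -/
noncomputable def bb (a : ℕ) : ℝ := 2 * Real.log (1 + 1 / (2 * (a:ℝ))) - 1 / ((a:ℝ) + 1)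

theorem phi_nonneg (q k : ℕ) : 0 ≤ phi q k := by
  unfold phi
  exact le_min zero_le_one (by positivity)

theorem phi_block {q a r : ℕ} (hr : r < q) : phi q (q * a + r) = min 1 (2 * (r : ℝ) / q) := by
  unfold phi
  rw [Nat.mul_add_mod, Nat.mod_eq_of_lt hr]

theorem block_step {q a : ℕ} (hq : 2 ≤ q) (ha : 1 ≤ a) (n : ℕ) :
    ∑ r ∈ range n, min 1 (2 * (r : ℝ) / q) * (1 / ((q * a : ℝ) + r) - 1 / ((q * a : ℝ) + r + 1)) ≤
      2 / q * Real.log (((q * a : ℝ) + min (n:ℝ) (q / 2)) / (q * a)) -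
        min 1 (2 * (n : ℝ) / q) * (1 / ((q * a : ℝ) + n)) := by
  have hq0 : (0:ℝ) < q := by exact_mod_cast (by omega : 0 < q)
  have ha0 : (0:ℝ) < a := by exact_mod_cast ha
  have hqa : (0:ℝ) < q * a := by positivity
  have hphi : ∀ n : ℕ, min 1 (2 * (n : ℝ) / q) = 2 / q * min (n:ℝ) (q / 2) := by
    intro n
    rw [mul_min_of_nonneg _ _ (by positivity : (0:ℝ) ≤ 2 / q), min_comm]
    congr 1
    · ring
    · field_simp
  induction n with
  | zero =>
    have : (0:ℝ) ≤ q / 2 := by positivity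
    simp [min_eq_left this, div_self hqa.ne']
  | succ n ih =>
    rw [Finset.sum_range_succ]
    set m : ℝ := min (n:ℝ) (q / 2) with hm
    set m' : ℝ := min ((n+1 : ℕ):ℝ) (q / 2) with hm'
    have hmm' : m ≤ m' := by
      apply min_le_min_right
      push_cast; linarith
    have hm0 : 0 ≤ m := le_min (Nat.cast_nonneg _) (by positivity)
    have hm'n : m' ≤ ((n+1 : ℕ):ℝ) := min_le_left _ _
    have hpos : 0 < (q * a : ℝ) + m := by positivity
    have hpos' : 0 < (q * a : ℝ) + m' := by linarith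
    have hlog : Real.log (((q * a : ℝ) + m') / (q * a)) = Real.log (((q * a : ℝ) + m) / (q * a)) +
        Real.log (((q * a : ℝ) + m') / ((q * a : ℝ) + m)) := by
      rw [← Real.log_mul (by positivity) (by positivity)]
      congr 1
      field_simp
    have hkey : (m' - m) * (1 / ((q * a : ℝ) + (n+1 : ℕ))) ≤
        Real.log (((q * a : ℝ) + m') / ((q * a : ℝ) + m)) := by
      have h1 := Real.one_sub_inv_le_log_of_pos (show 0 < ((q * a : ℝ) + m') / ((q * a : ℝ) + m) by positivity)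
      refine le_trans ?_ h1
      have h2 : 1 - (((q * a : ℝ) + m') / ((q * a : ℝ) + m))⁻¹ = (m' - m) * (1 / ((q * a : ℝ) + m')) := by
        field_simp
        ring
      rw [h2]
      apply mul_le_mul_of_nonneg_left _ (by linarith)
      apply one_div_le_one_div_of_le hpos'
      linarith
    rw [hphi (n+1), ← hm', hlog]
    rw [hphi n, ← hm] at ih ⊢
    have e1 : (1:ℝ) / ((q * a : ℝ) + n + 1) = 1 / ((q * a : ℝ) + (n+1 : ℕ)) := by push_cast; ring
    rw [e1]
    have h3 := mul_le_mul_of_nonneg_left hkey (show (0:ℝ) ≤ 2 / q by positivity)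
    nlinarith

theorem block {q a : ℕ} (hq : 2 ≤ q) (ha : 1 ≤ a) :
    ∑ r ∈ range q, phi q (q * a + r) * om (q * a + r) ≤ 1 / q * bb a := by
  have hq0 : (0:ℝ) < q := by exact_mod_cast (by omega : 0 < q)
  have ha0 : (0:ℝ) < a := by exact_mod_cast ha
  have h := block_step hq ha q
  have h1 : ∑ r ∈ range q, phi q (q * a + r) * om (q * a + r) =
      ∑ r ∈ range q, min 1 (2 * (r : ℝ) / q) * (1 / ((q * a : ℝ) + r) - 1 / ((q * a : ℝ) + r + 1)) := by
    refine Finset.sum_congr rfl fun r hr => ?_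
    rw [phi_block (mem_range.mp hr)]
    unfold om
    push_cast
    rfl
  rw [h1]
  refine h.trans (le_of_eq ?_)
  have h2 : min (q:ℝ) (q / 2) = q / 2 := min_eq_right (by linarith)
  have h3 : min 1 (2 * (q : ℝ) / q) = 1 := by
    rw [min_eq_left]
    rw [mul_div_assoc, div_self hq0.ne']; norm_num
  rw [h2, h3]
  unfold bb
  have h4 : ((q * a : ℝ) + q / 2) / (q * a) = 1 + 1 / (2 * (a:ℝ)) := by
    field_simp
  rw [h4]
  field_simp

/-- sum over many blocks -/
theorem blocks {q : ℕ} (hq : 2 ≤ q) (A : ℕ) :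
    ∑ k ∈ Ico q (q * (A + 1)), phi q k * om k ≤ 1 / q * ∑ a ∈ Icc 1 A, bb a := by
  induction A with
  | zero => simp
  | succ A ih =>
    rw [← Finset.sum_Ico_consecutive _ (show q ≤ q * (A + 1) from Nat.le_mul_of_pos_right q (Nat.succ_pos _))
      (show q * (A + 1) ≤ q * (A + 1 + 1) from Nat.mul_le_mul_left q (Nat.le_succ _))]
    rw [Finset.sum_Icc_succ_top (by omega), mul_add (1 / (q:ℝ))]
    refine add_le_add ih ?_
    have h1 := block (q := q) (a := A + 1) hq (by omega)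
    rw [Finset.sum_Ico_eq_sum_range]
    have h2 : q * (A + 1 + 1) - q * (A + 1) = q := by
      rw [Nat.mul_succ q (A+1)]; omega
    rw [h2]
    exact h1

end Pool.Agent.ESF
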