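import Pool.Agent.ESF.Defs

/-!
# ESF.Luc: two cases in which a prime does not divide a binomial coefficient
-/

namespace Pool.Agent.ESF

/-- Lucas: if the lowest `L` base `p` digits of `n` are all `p - 1` and `k < p ^ L`, then `p` does not
divide `n.choose k`. -/
theorem not_dvd_choose_of_mod (p : ℕ) (hp : p.Prime) (L : ℕ) :
    ∀ n k : ℕ, k < p ^ L → p ^ L ∣ n + 1 → ¬ p ∣ n.choose k := by
  have := Fact.mk hp
  induction L with
  | zero =>
    intro n k hk _
    have : k = 0 := by simpa using hk
    subst this
    simp [hp.one_lt.ne']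
  | succ L ih =>
    intro n k hk hn h
    have h1 := Choose.choose_modEq_choose_mod_mul_choose_div_nat (n := n) (k := k) (p := p)
    have h2 : p ∣ (n % p).choose (k % p) * (n / p).choose (k / p) := by
      rw [← Nat.modEq_zero_iff_dvd] at h ⊢
      exact h1.symm.trans h
    have hpn : p ∣ n + 1 := (Dvd.intro _ (pow_succ' p L).symm).trans hn
    have hmod : n % p = p - 1 := by
      obtain ⟨c, hc⟩ := hpn
      have hp1 := hp.one_lt
      have hc0 : 0 < c := by
        rcases Nat.eq_zero_or_pos c with h | h
        · subst h; omega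
        · exact h
      obtain ⟨c', rfl⟩ : ∃ c', c = c' + 1 := ⟨c - 1, by omega⟩
      have : n = (p - 1) + p * c' := by
        have : p * (c' + 1) = p * c' + p := by ring
        omega
      rw [this, Nat.add_mul_mod_self_left, Nat.mod_eq_of_lt (by omega)]
    rcases hp.dvd_mul.mp h2 with h3 | h3
    · rw [hmod] at h3
      have hle : k % p ≤ p - 1 := by have := Nat.mod_lt k hp.pos; omega
      have h4 : (p - 1).choose (k % p) ∣ (p - 1).factorial := by
        rw [← Nat.choose_mul_factorial_mul_factorial hle]
        exact ⟨_, mul_assoc _ _ _⟩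
      have h5 := h3.trans h4
      have h6 := (hp.dvd_factorial).mp h5
      have := hp.one_lt
      omega
    · refine ih (n / p) (k / p) ?_ ?_ h3
      · rw [Nat.div_lt_iff_lt_mul hp.pos, ← pow_succ]; exact hk
      · obtain ⟨c, hc⟩ := hn
        refine ⟨c, ?_⟩
        have h7 : n / p + 1 = (n + 1) / p := by
          have h8 := Nat.div_add_mod n p
          rw [hmod] at h8
          have hp1 := hp.one_lt
          have : n + 1 = p * (n / p + 1) := by
            have : p * (n / p + 1) = p * (n / p) + p := by ring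
            omega
          rw [this, Nat.mul_div_cancel_left _ hp.pos]
        rw [h7, hc, pow_succ', mul_assoc, Nat.mul_div_cancel_left _ hp.pos]

/-- Lucas for two digits. -/
theorem not_dvd_choose_of_two (p : ℕ) (hp : p.Prime) (n k : ℕ) (hk : k < p ^ 2)
    (h0 : k % p ≤ n % p) (h1 : k / p ≤ (n / p) % p) : ¬ p ∣ n.choose k := by
  have := Fact.mk hp
  intro h
  have key : ∀ a b : ℕ, a < p → b ≤ a → ¬ p ∣ a.choose b := by
    intro a b ha hb h3
    have h4 : a.choose b ∣ a.factorial := by
      rw [← Nat.choose_mul_factorial_mul_factorial hb]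
      exact ⟨_, mul_assoc _ _ _⟩
    have h6 := (hp.dvd_factorial).mp (h3.trans h4)
    omega
  have e1 := Choose.choose_modEq_choose_mod_mul_choose_div_nat (n := n) (k := k) (p := p)
  have h2 : p ∣ (n % p).choose (k % p) * (n / p).choose (k / p) := by
    rw [← Nat.modEq_zero_iff_dvd] at h ⊢
    exact e1.symm.trans h
  have hkp : k / p < p := by
    rw [Nat.div_lt_iff_lt_mul hp.pos]; nlinarith [hk]
  rcases hp.dvd_mul.mp h2 with h3 | h3
  · exact key _ _ (Nat.mod_lt _ hp.pos) h0 h3
  · have e2 := Choose.choose_modEq_choose_mod_mul_choose_div_nat (n := n / p) (k := k / p) (p := p)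
    have h4 : p ∣ ((n / p) % p).choose ((k / p) % p) * (n / p / p).choose (k / p / p) := by
      rw [← Nat.modEq_zero_iff_dvd] at h3 ⊢
      exact e2.symm.trans h3
    rw [Nat.mod_eq_of_lt hkp, Nat.div_eq_of_lt hkp, Nat.choose_zero_right, mul_one] at h4
    exact key _ _ (Nat.mod_lt _ hp.pos) h1 h4

end Pool.Agent.ESF
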