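import Pool.Agent.ESF.Sieve
import Pool.Agent.ESF.Luc

/-!
# ESF.Build: the construction of a small admissible number
-/

namespace Pool.Agent.ESF

open Finset

/-- large primes -/
def Pm (k y : ℕ) : Finset ℕ := (Nat.primesLE k).filter (fun q => y < q)

/-- large primes treated by the Chinese remainder theorem -/
def Cs (k y : ℕ) : Finset ℕ := (Pm k y).filter (fun q => q ≤ 2 * (k % q))

/-- large primes treated by the sieve -/
def Us (k y : ℕ) : Finset ℕ := (Pm k y).filter (fun q => 2 * (k % q) < q)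

/-- the modulus -/
def R (k y : ℕ) : ℕ := (∏ q ∈ Nat.primesLE y, q ^ (Nat.log q k + 1)) * ∏ q ∈ Cs k y, q

/-- the candidates -/
def nn (k y t : ℕ) : ℕ := (R k y - 1) + R k y * t

/-- counting in a linear progression -/
theorem count_lin {q z : ℕ} (hq : 0 < q) (hz : z.Coprime q) (b c : ℕ) (hc : c ≤ q) :
    ((range q).filter (fun i => (b + z * i) % q < c)).card = c := by
  have hinj : Set.InjOn (fun i => (b + z * i) % q) (range q : Set ℕ) := by
    intro i hi j hj hij
    simp only [coe_range, Set.mem_Iio] at hi hj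
    have h1 : b + z * i ≡ b + z * j [MOD q] := hij
    have h2 : z * i ≡ z * j [MOD q] := Nat.ModEq.add_left_cancel' b h1
    have h3 : i ≡ j [MOD q] := Nat.ModEq.cancel_left_of_coprime (by rwa [Nat.Coprime, Nat.gcd_comm] at hz) h2
    exact Nat.ModEq.eq_of_lt_of_lt h3 hi hj
  have himg : (range q).image (fun i => (b + z * i) % q) = range q := by
    apply Finset.eq_of_subset_of_card_le
    · intro x hx
      obtain ⟨i, _, rfl⟩ := mem_image.mp hx
      exact mem_range.mpr (Nat.mod_lt _ hq)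
    · rw [Finset.card_image_of_injOn hinj]
  have h4 : ((range q).filter (fun i => (b + z * i) % q < c)).image (fun i => (b + z * i) % q) =
      range c := by
    ext x
    simp only [mem_image, mem_filter, mem_range]
    constructor
    · rintro ⟨i, ⟨_, h⟩, rfl⟩
      exact h
    · intro hx
      have : x ∈ (range q).image (fun i => (b + z * i) % q) := by
        rw [himg, mem_range]; omega
      obtain ⟨i, hi, rfl⟩ := mem_image.mp this
      exact ⟨i, ⟨mem_range.mp hi, hx⟩, rfl⟩
  rw [← Finset.card_image_of_injOn (s := (range q).filter (fun i => (b + z * i) % q < c))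
    (f := fun i => (b + z * i) % q), h4, card_range]
  exact hinj.mono (by
    intro x hx
    simp only [coe_filter, mem_range, Set.mem_ofPred_eq] at hx
    simp [hx.1])

theorem mem_Pm {k y q : ℕ} : q ∈ Pm k y ↔ q ≤ k ∧ q.Prime ∧ y < q := by
  simp only [Pm, mem_filter, Nat.mem_primesLE, and_assoc]

theorem Us_sub (k y : ℕ) : Us k y ⊆ Pm k y := Finset.filter_subset _ _

theorem Cs_sub (k y : ℕ) : Cs k y ⊆ Pm k y := Finset.filter_subset _ _

theorem Rsmall_coprime {k y q : ℕ} (hq : q ∈ Pm k y) :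
    (∏ p ∈ Nat.primesLE y, p ^ (Nat.log p k + 1)).Coprime q := by
  have hq' := mem_Pm.mp hq
  refine Nat.Coprime.prod_left fun p hp => ?_
  have hp' := Nat.mem_primesLE.mp hp
  refine Nat.Coprime.pow_left _ ((Nat.coprime_primes hp'.2 hq'.2.1).mpr ?_)
  rintro rfl
  omega

theorem prodset_coprime {A : Finset ℕ} (hA : ∀ p ∈ A, p.Prime) {q : ℕ} (hq : q.Prime) (hqA : q ∉ A) :
    (∏ p ∈ A, p).Coprime q :=
  Nat.Coprime.prod_left fun p hp => (Nat.coprime_primes (hA p hp) hq).mpr fun h => hqA (h ▸ hp)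

theorem Pm_prime {k y : ℕ} : ∀ p ∈ Pm k y, p.Prime := fun _ hp => (mem_Pm.mp hp).2.1

theorem not_mem_Cs_of_Us {k y q : ℕ} (hq : q ∈ Us k y) : q ∉ Cs k y := by
  intro h
  have h1 := (mem_filter.mp hq).2
  have h2 := (mem_filter.mp h).2
  omega

theorem R_pos (k y : ℕ) : 0 < R k y := by
  unfold R
  refine Nat.mul_pos (Finset.prod_pos fun p hp => ?_) (Finset.prod_pos fun p hp => ?_)
  · exact pow_pos (Nat.mem_primesLE.mp hp).2.pos _
  · exact (Pm_prime p (Cs_sub k y hp)).pos

theorem R_coprime_of_Us {k y q : ℕ} (hq : q ∈ Us k y) : (R k y).Coprime q := by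
  unfold R
  refine Nat.Coprime.mul_left (Rsmall_coprime (Us_sub k y hq)) ?_
  exact prodset_coprime (fun p hp => Pm_prime p (Cs_sub k y hp)) (Pm_prime q (Us_sub k y hq))
    (not_mem_Cs_of_Us hq)

/-- every large prime divides `R * Q` exactly once -/
theorem RQ_exact {k y q : ℕ} (hq : q ∈ Pm k y) :
    ∃ z, R k y * ∏ p ∈ Us k y, p = q * z ∧ z.Coprime q := by
  have hqp := Pm_prime q hq
  by_cases h : 2 * (k % q) < q
  · have hU : q ∈ Us k y := mem_filter.mpr ⟨hq, h⟩
    refine ⟨R k y * ∏ p ∈ (Us k y).erase q, p, ?_, ?_⟩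
    · rw [← Finset.mul_prod_erase _ _ hU]; ring
    · refine Nat.Coprime.mul_left (R_coprime_of_Us hU) ?_
      exact prodset_coprime (fun p hp => Pm_prime p (Us_sub k y (Finset.mem_of_mem_erase hp))) hqp
        (Finset.notMem_erase _ _)
  · have hC : q ∈ Cs k y := mem_filter.mpr ⟨hq, by omega⟩
    refine ⟨(∏ p ∈ Nat.primesLE y, p ^ (Nat.log p k + 1)) * (∏ p ∈ (Cs k y).erase q, p) *
      ∏ p ∈ Us k y, p, ?_, ?_⟩
    · unfold R
      rw [← Finset.mul_prod_erase _ _ hC]; ring
    · refine Nat.Coprime.mul_left (Nat.Coprime.mul_left (Rsmall_coprime hq) ?_) ?_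
      · exact prodset_coprime (fun p hp => Pm_prime p (Cs_sub k y (Finset.mem_of_mem_erase hp))) hqp
          (Finset.notMem_erase _ _)
      · exact prodset_coprime (fun p hp => Pm_prime p (Us_sub k y hp)) hqp
          (fun h' => h (mem_filter.mp h').2)

/-- violation of the lowest digit -/
def vv (k y q t : ℕ) : Prop := nn k y t % q < k % q

/-- violation of the second digit -/
def vv' (k y q t : ℕ) : Prop := (nn k y t / q) % q < k / q

theorem nn_add (k y t s : ℕ) : nn k y (t + s) = nn k y t + R k y * s := by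
  unfold nn; ring

open Classical in
theorem hyp (k y : ℕ) : Hyp (Us k y) (vv k y) (fun q => ((k % q : ℕ) : ℝ) / q) where
  prime := fun q hq => Pm_prime q (Us_sub k y hq)
  per := by
    intro q _ t
    unfold vv
    rw [nn_add, Nat.add_mul_mod_self_right]
  nonneg := fun q _ => by positivity
  le_half := by
    intro q hq
    have h1 := (mem_filter.mp hq).2
    have h2 : (0:ℝ) < q := by exact_mod_cast (Pm_prime q (Us_sub k y hq)).pos
    rw [div_le_div_iff₀ h2 two_pos]
    have : ((2 * (k % q) : ℕ) : ℝ) ≤ q := by exact_mod_cast h1.le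
    push_cast at this ⊢
    linarith
  count := by
    intro q hq
    have hqp := (Pm_prime q (Us_sub k y hq))
    have h2 : (0:ℝ) < q := by exact_mod_cast hqp.pos
    have h3 := count_lin (q := q) (z := R k y) hqp.pos (R_coprime_of_Us hq) (R k y - 1) (k % q)
      (Nat.mod_lt _ hqp.pos).le
    rw [div_mul_cancel₀ _ h2.ne']
    norm_cast
    convert h3 using 2
    ext t
    simp only [mem_filter, vv, nn]

open Classical in
theorem hyp2 {k y : ℕ} (hy : k < (y + 1) ^ 2) : Hyp2 (Us k y) (Pm k y) (vv' k y) (fun q => k / q) where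
  pos := fun q hq => (Pm_prime q hq).pos
  per := by
    intro q hq t
    unfold vv'
    rw [nn_add, show R k y * q ^ 2 = q * (q * R k y) by ring, Nat.add_mul_div_left _ _ (Pm_prime q hq).pos,
      Nat.add_mul_mod_self_left]
  shift := by
    intro q hq t
    have hqp := (Pm_prime q hq)
    obtain ⟨z, hz, hzc⟩ := RQ_exact hq
    have hle : k / q ≤ q := by
      have h1 := (mem_Pm.mp hq).2.2
      rw [Nat.div_le_iff_le_mul_add_pred hqp.pos]
      nlinarith
    have h3 := count_lin (q := q) (z := z) hqp.pos hzc (nn k y t / q) (k / q) hle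
    rw [← h3]
    congr 1
    apply Finset.filter_congr
    intro i _
    unfold vv'
    rw [nn_add, show R k y * ((∏ q ∈ Us k y, q) * i) = q * (z * i) by
      rw [← mul_assoc, hz]; ring, Nat.add_mul_div_left _ _ hqp.pos]

theorem nn_succ (k y t : ℕ) : nn k y t + 1 = R k y * (t + 1) := by
  unfold nn
  have := R_pos k y
  rw [Nat.mul_succ]
  omega

theorem R_ge {k y : ℕ} (hy : 3 ≤ y) (hk : 2 ≤ k) : k + 3 ≤ R k y := by
  have h2 : (2 : ℕ) ∈ Nat.primesLE y := Nat.mem_primesLE.mpr ⟨by omega, Nat.prime_two⟩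
  have h3 : (3 : ℕ) ∈ (Nat.primesLE y).erase 2 :=
    Finset.mem_erase.mpr ⟨by norm_num, Nat.mem_primesLE.mpr ⟨hy, Nat.prime_three⟩⟩
  have e : ∏ q ∈ Nat.primesLE y, q ^ (Nat.log q k + 1) =
      2 ^ (Nat.log 2 k + 1) * (3 ^ (Nat.log 3 k + 1) *
        ∏ q ∈ ((Nat.primesLE y).erase 2).erase 3, q ^ (Nat.log q k + 1)) := by
    rw [← Finset.mul_prod_erase _ _ h2, ← Finset.mul_prod_erase _ _ h3]
  have p1 : 0 < ∏ q ∈ ((Nat.primesLE y).erase 2).erase 3, q ^ (Nat.log q k + 1) :=
    Finset.prod_pos fun p hp => pow_pos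
      (Nat.mem_primesLE.mp (Finset.mem_of_mem_erase (Finset.mem_of_mem_erase hp))).2.pos _
  have p2 : 0 < ∏ q ∈ Cs k y, q := Finset.prod_pos fun p hp => (Pm_prime p (Cs_sub k y hp)).pos
  have a2 : k < 2 ^ (Nat.log 2 k + 1) := Nat.lt_pow_succ_log_self (by norm_num) k
  have a3 : k < 3 ^ (Nat.log 3 k + 1) := Nat.lt_pow_succ_log_self (by norm_num) k
  unfold R
  rw [e]
  calc k + 3 ≤ (k + 1) * (k + 1) := by nlinarith
    _ ≤ 2 ^ (Nat.log 2 k + 1) * 3 ^ (Nat.log 3 k + 1) := Nat.mul_le_mul a2 a3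
    _ ≤ (2 ^ (Nat.log 2 k + 1) * 3 ^ (Nat.log 3 k + 1)) *
      ((∏ q ∈ ((Nat.primesLE y).erase 2).erase 3, q ^ (Nat.log q k + 1)) * ∏ q ∈ Cs k y, q) :=
        Nat.le_mul_of_pos_right _ (Nat.mul_pos p1 p2)
    _ = _ := by ring

/-- The main construction. -/
theorem g_le_of_sieve {k y : ℕ} (hk : 2 ≤ k) (hy : k < (y + 1) ^ 2) (hy3 : 3 ≤ y) (d T : ℕ)
    (htail : (Us k y).card * Wgt (fun q => ((k % q : ℕ) : ℝ) / q) (Us k y) d ≤
      1 / 4 * Wle (fun q => ((k % q : ℕ) : ℝ) / q) (Us k y) d)
    (ha : ∑ q ∈ Pm k y, ((k / q : ℕ) : ℝ) / q ≤ 1 / 4)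
    (hT : 4 ^ ((Us k y).card + 1) * (1 + (Us k y).card + (Pm k y).card) * k ^ (2 * d + 2) < T) :
    g k ≤ R k y * T := by
  obtain ⟨t, ht, h1, h2⟩ := sieve (hyp k y) (hyp2 hy) (B := k) (by omega)
    (fun q hq => (mem_Pm.mp (Us_sub k y hq)).1) (fun q hq => (mem_Pm.mp hq).1) d htail ha T hT
  have hmem : nn k y t ∈ {n : ℕ | k + 1 < n ∧ ∀ p : ℕ, p.Prime → p ∣ n.choose k → k < p} := by
    refine ⟨?_, ?_⟩
    · have h3 := R_ge hy3 hk
      unfold nn
      have : 0 ≤ R k y * t := Nat.zero_le _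
      omega
    · intro p hp hdvd
      by_contra hcon
      push Not at hcon
      by_cases hpy : p ≤ y
      · refine not_dvd_choose_of_mod p hp (Nat.log p k + 1) _ k
          (Nat.lt_pow_succ_log_self hp.one_lt k) ?_ hdvd
        rw [nn_succ]
        have : p ^ (Nat.log p k + 1) ∣ ∏ q ∈ Nat.primesLE y, q ^ (Nat.log q k + 1) :=
          Finset.dvd_prod_of_mem (fun q => q ^ (Nat.log q k + 1)) (Nat.mem_primesLE.mpr ⟨hpy, hp⟩)
        unfold R
        rw [mul_assoc]
        exact this.mul_right _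
      · have hpm : p ∈ Pm k y := mem_Pm.mpr ⟨hcon, hp, by omega⟩
        have hk2 : k < p ^ 2 := by
          push Not at hpy
          nlinarith
        have hd2 : k / p ≤ (nn k y t / p) % p := by
          have := h2 p hpm
          unfold vv' at this
          omega
        refine not_dvd_choose_of_two p hp _ k hk2 ?_ hd2 hdvd
        by_cases hU : 2 * (k % p) < p
        · have := h1 p (mem_filter.mpr ⟨hpm, hU⟩)
          unfold vv at this
          omega
        · have hC : p ∈ Cs k y := mem_filter.mpr ⟨hpm, by omega⟩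
          have hdvdR : p ∣ R k y := by
            unfold R
            exact (Finset.dvd_prod_of_mem (fun q => q) hC).mul_left _
          obtain ⟨c, hc⟩ := hdvdR.mul_right (t + 1)
          have h4 := nn_succ k y t
          rw [hc] at h4
          have hc0 : 0 < c := by
            rcases Nat.eq_zero_or_pos c with h | h
            · subst h; omega
            · exact h
          obtain ⟨c', rfl⟩ : ∃ c', c = c' + 1 := ⟨c - 1, by omega⟩
          have hp1 := hp.one_lt
          have h5 : nn k y t = (p - 1) + p * c' := by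
            have h6 : p * (c' + 1) = p * c' + p := by ring
            omega
          have h7 : (p - 1) % p = p - 1 := Nat.mod_eq_of_lt (by omega)
          have h8 := Nat.mod_lt k hp.pos
          rw [h5, Nat.add_mul_mod_self_left, h7]
          omega
  have hle : g k ≤ nn k y t := Nat.sInf_le hmem
  have h3 := nn_succ k y t
  have h4 : R k y * (t + 1) ≤ R k y * T := Nat.mul_le_mul_left _ ht
  omega

end Pool.Agent.ESF
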