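import Pool.Agent.ESF.Build

/-!
# ESF.Cheb: consequences of Chebyshev's estimates
-/

namespace Pool.Agent.ESF

open Finset Filter

theorem eventually_pi : ∀ᶠ k : ℕ in atTop, ((Nat.primesLE k).card : ℝ) * Real.log k ≤ 2 * k := by
  have h := Chebyshev.eventually_primeCounting_le (ε := 1/2) (by norm_num)
  have h1 := tendsto_natCast_atTop_atTop (R := ℝ) |>.eventually h
  filter_upwards [h1, eventually_ge_atTop 3] with k hk hk3
  rw [Nat.floor_natCast, ← Nat.primesLE_card_eq_primeCounting] at hk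
  have hlog : 0 < Real.log k := Real.log_pos (by exact_mod_cast (by omega : 1 < k))
  rw [le_div_iff₀ hlog] at hk
  refine hk.trans ?_
  have hlog4 : Real.log 4 ≤ 3 / 2 := by
    have : Real.log 4 = 2 * Real.log 2 := by
      rw [show (4:ℝ) = 2 ^ 2 by norm_num, Real.log_pow]; push_cast; ring
    rw [this]
    have := Real.log_two_lt_d9
    linarith
  have hk0 : (0:ℝ) ≤ k := Nat.cast_nonneg _
  nlinarith

/-- `∑_{y < q ≤ k} log q / q² ≤ 2 log 4 / (y + 1)` -/
theorem sum_log_div_sq (y k : ℕ) :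
    ∑ q ∈ Pm k y, Real.log q / (q : ℝ) ^ 2 ≤ 2 * Real.log 4 / (y + 1) := by
  have hl4 : 0 < Real.log 4 := Real.log_pos (by norm_num)
  have key : ∀ k : ℕ, y ≤ k → ∑ q ∈ Pm k y, Real.log q / (q : ℝ) ^ 2 ≤
      Chebyshev.theta k / ((k : ℝ) + 1) ^ 2 + 2 * Real.log 4 * (1 / ((y:ℝ) + 1) - 1 / ((k:ℝ) + 1)) := by
    intro k hk
    induction k, hk using Nat.le_induction with
    | base =>
      have : Pm y y = ∅ := by
        ext q
        rw [mem_Pm]
        simp only [notMem_empty, iff_false, not_and, not_lt]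
        intro h _; exact h
      rw [this, Finset.sum_empty, sub_self, mul_zero, add_zero]
      exact div_nonneg (Chebyshev.theta_nonneg _) (by positivity)
    | succ k hk ih =>
      have hstep : ∑ q ∈ Pm (k+1) y, Real.log q / (q : ℝ) ^ 2 =
          ∑ q ∈ Pm k y, Real.log q / (q : ℝ) ^ 2 +
          (Chebyshev.theta ((k+1 : ℕ) : ℝ) - Chebyshev.theta (k : ℝ)) / ((k:ℝ) + 1) ^ 2 := by
        rw [Chebyshev.theta_eq_sum_primesLE_log, Chebyshev.theta_eq_sum_primesLE_log]
        by_cases hp : (k+1).Prime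
        · have e1 : Nat.primesLE (k+1) = insert (k+1) (Nat.primesLE k) := by
            ext q
            simp only [Nat.mem_primesLE, mem_insert]
            constructor
            · rintro ⟨h1, h2⟩
              rcases Nat.lt_or_ge k q with h | h
              · left; omega
              · right; exact ⟨h, h2⟩
            · rintro (rfl | ⟨h1, h2⟩)
              · exact ⟨le_rfl, hp⟩
              · exact ⟨by omega, h2⟩
          have hn : (k+1) ∉ Nat.primesLE k := fun h => by
            have := (Nat.mem_primesLE.mp h).1; omega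
          have e2 : Pm (k+1) y = insert (k+1) (Pm k y) := by
            unfold Pm
            rw [e1, Finset.filter_insert, if_pos (by omega)]
          have hn2 : (k+1) ∉ Pm k y := fun h => by
            have := (mem_Pm.mp h).1; omega
          rw [e1, e2, Finset.sum_insert hn, Finset.sum_insert hn2]
          push_cast
          ring
        · have e1 : Nat.primesLE (k+1) = Nat.primesLE k := by
            ext q
            simp only [Nat.mem_primesLE]
            constructor
            · rintro ⟨h1, h2⟩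
              refine ⟨?_, h2⟩
              rcases Nat.lt_or_ge k q with h | h
              · exfalso
                have hqk : q = k + 1 := by omega
                exact hp (hqk ▸ h2)
              · exact h
            · rintro ⟨h1, h2⟩
              exact ⟨by omega, h2⟩
          have e2 : Pm (k+1) y = Pm k y := by unfold Pm; rw [e1]
          rw [e1, e2]; simp
      rw [hstep]
      have hk1 : (0:ℝ) < (k:ℝ) + 1 := by positivity
      have hk2 : (0:ℝ) < (k:ℝ) + 2 := by positivity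
      have hth : Chebyshev.theta ((k+1 : ℕ) : ℝ) ≤ Real.log 4 * ((k:ℝ) + 1) := by
        have := Chebyshev.theta_le_log4_mul_x (x := ((k+1 : ℕ) : ℝ)) (Nat.cast_nonneg _)
        push_cast at this ⊢
        exact this
      have hmain : Chebyshev.theta ((k+1 : ℕ) : ℝ) * (1 / ((k:ℝ) + 1) ^ 2 - 1 / ((k:ℝ) + 2) ^ 2) ≤
          2 * Real.log 4 * (1 / ((k:ℝ) + 1) - 1 / ((k:ℝ) + 2)) := by
        have e3 : 1 / ((k:ℝ) + 1) ^ 2 - 1 / ((k:ℝ) + 2) ^ 2 =
            (2 * (k:ℝ) + 3) / (((k:ℝ) + 1) ^ 2 * ((k:ℝ) + 2) ^ 2) := by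
          field_simp; ring
        have e4 : 1 / ((k:ℝ) + 1) - 1 / ((k:ℝ) + 2) = 1 / (((k:ℝ) + 1) * ((k:ℝ) + 2)) := by
          field_simp; ring
        rw [e3, e4]
        calc _ ≤ Real.log 4 * ((k:ℝ) + 1) * ((2 * (k:ℝ) + 3) / (((k:ℝ) + 1) ^ 2 * ((k:ℝ) + 2) ^ 2)) :=
              mul_le_mul_of_nonneg_right hth (by positivity)
          _ = Real.log 4 * (2 * (k:ℝ) + 3) / (((k:ℝ) + 1) * ((k:ℝ) + 2) ^ 2) := by
              field_simp
          _ ≤ Real.log 4 * (2 * ((k:ℝ) + 2)) / (((k:ℝ) + 1) * ((k:ℝ) + 2) ^ 2) := by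
              gcongr; linarith
          _ = _ := by field_simp
      push_cast at hmain ⊢
      have e5 : (k:ℝ) + 1 + 1 = (k:ℝ) + 2 := by ring
      rw [e5]
      have e6 : Chebyshev.theta (k : ℝ) / ((k:ℝ) + 1) ^ 2 +
          (Chebyshev.theta ((k:ℝ)+1) - Chebyshev.theta (k : ℝ)) / ((k:ℝ) + 1) ^ 2 =
          Chebyshev.theta ((k:ℝ)+1) * (1 / ((k:ℝ) + 1) ^ 2) := by ring
      have e7 : Chebyshev.theta ((k:ℝ)+1) / ((k:ℝ) + 2) ^ 2 =
          Chebyshev.theta ((k:ℝ)+1) * (1 / ((k:ℝ) + 2) ^ 2) := by ring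
      nlinarith
  rcases Nat.lt_or_ge k y with hky | hky
  · have : Pm k y = ∅ := by
      ext q
      rw [mem_Pm]
      simp only [notMem_empty, iff_false, not_and, not_lt]
      intro h _; omega
    rw [this, Finset.sum_empty]
    positivity
  · have h1 := key k hky
    have hk1 : (0:ℝ) < (k:ℝ) + 1 := by positivity
    have hth : Chebyshev.theta (k : ℝ) ≤ Real.log 4 * ((k:ℝ) + 1) := by
      have := Chebyshev.theta_le_log4_mul_x (x := (k : ℝ)) (Nat.cast_nonneg _)
      nlinarith
    have h2 : Chebyshev.theta (k : ℝ) / ((k : ℝ) + 1) ^ 2 ≤ Real.log 4 / ((k:ℝ) + 1) := by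
      rw [div_le_div_iff₀ (by positivity) hk1]
      nlinarith
    have e1 : 2 * Real.log 4 * (1 / ((y:ℝ) + 1) - 1 / ((k:ℝ) + 1)) =
        2 * Real.log 4 / ((y:ℝ) + 1) - 2 * (Real.log 4 / ((k:ℝ) + 1)) := by ring
    have h3 : 0 ≤ Real.log 4 / ((k:ℝ) + 1) := by positivity
    linarith

/-- `∑_{y < q ≤ k} ⌊k/q⌋ / q ≤ 2 k log 4 / ((y + 1) log y)`. -/
theorem sum_digit (y k : ℕ) (hy : 2 ≤ y) :
    ∑ q ∈ Pm k y, ((k / q : ℕ) : ℝ) / q ≤ 2 * k * Real.log 4 / ((y + 1) * Real.log y) := by
  have hly : 0 < Real.log y := Real.log_pos (by exact_mod_cast (by omega : 1 < y))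
  have h1 : ∀ q ∈ Pm k y, ((k / q : ℕ) : ℝ) / q ≤ k / Real.log y * (Real.log q / (q : ℝ) ^ 2) := by
    intro q hq
    have hq' := mem_Pm.mp hq
    have hq0 : (0:ℝ) < q := by exact_mod_cast hq'.2.1.pos
    have h2 : ((k / q : ℕ) : ℝ) ≤ k / q := Nat.cast_div_le
    have h3 : Real.log y ≤ Real.log q :=
      Real.log_le_log (by exact_mod_cast (by omega : 0 < y)) (by exact_mod_cast hq'.2.2.le)
    calc ((k / q : ℕ) : ℝ) / q ≤ (k / q) / q := by gcongr
      _ = k * 1 / (q : ℝ) ^ 2 := by field_simp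
      _ ≤ k * (Real.log q / Real.log y) / (q : ℝ) ^ 2 := by
          gcongr
          rwa [one_le_div hly]
      _ = _ := by field_simp
  calc _ ≤ ∑ q ∈ Pm k y, k / Real.log y * (Real.log q / (q : ℝ) ^ 2) := Finset.sum_le_sum h1
    _ = k / Real.log y * ∑ q ∈ Pm k y, (Real.log q / (q : ℝ) ^ 2) := by rw [Finset.mul_sum]
    _ ≤ k / Real.log y * (2 * Real.log 4 / (y + 1)) :=
        mul_le_mul_of_nonneg_left (sum_log_div_sq y k) (by positivity)
    _ = _ := by field_simp

end Pool.Agent.ESF
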