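import Pool.Agent.ESF.Block

/-!
# ESF.Const: the constant
-/

namespace Pool.Agent.ESF

open Finset Filter

/-- the constant `c* = 1 - γ - log (π/4)` -/
noncomputable def cs : ℝ := 1 - Real.eulerMascheroniConstant - Real.log (Real.pi / 4)

theorem bb_nonneg {a : ℕ} (ha : 1 ≤ a) : 0 ≤ bb a := by
  have ha0 : (0:ℝ) < a := by exact_mod_cast ha
  unfold bb
  have h1 := Real.le_log_one_add_of_nonneg (show (0:ℝ) ≤ 1 / (2 * (a:ℝ)) by positivity)
  have h2 : 1 / ((a:ℝ) + 1) ≤ 2 * (2 * (1 / (2 * (a:ℝ))) / (1 / (2 * (a:ℝ)) + 2)) := by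
    have h3 : 2 * (2 * (1 / (2 * (a:ℝ))) / (1 / (2 * (a:ℝ)) + 2)) = 4 / (1 + 4 * a) := by
      field_simp
      ring
    rw [h3, div_le_div_iff₀ (by positivity) (by positivity)]
    nlinarith
  linarith

theorem sum_bb (A : ℕ) : ∑ a ∈ Icc 1 A, bb a =
    Real.log ((2 * A + 1) / Real.Wallis.W A) - (harmonic (A + 1) : ℝ) + 1 := by
  induction A with
  | zero => simp [Real.Wallis.W, harmonic]
  | succ A ih =>
    rw [Finset.sum_Icc_succ_top (by omega), ih]
    have hW : Real.Wallis.W (A + 1) = Real.Wallis.W A *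
        ((2 * A + 2) / (2 * A + 1) * ((2 * A + 2) / (2 * A + 3))) := by
      exact Real.Wallis.W_succ A
    have hWpos := Real.Wallis.W_pos A
    have hharm : (harmonic (A + 1 + 1) : ℝ) = (harmonic (A + 1) : ℝ) + 1 / ((A:ℝ) + 1 + 1) := by
      rw [harmonic_succ]
      push_cast
      rw [one_div]
    rw [hW, hharm]
    unfold bb
    have h1 : 2 * Real.log (1 + 1 / (2 * ((A + 1 : ℕ):ℝ))) =
        Real.log ((1 + 1 / (2 * ((A + 1 : ℕ):ℝ))) ^ 2) := by
      rw [Real.log_pow]; push_cast; ring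
    have h2 : Real.log ((2 * ((A + 1 : ℕ):ℝ) + 1) / (Real.Wallis.W A *
        ((2 * A + 2) / (2 * A + 1) * ((2 * A + 2) / (2 * A + 3))))) =
        Real.log ((2 * A + 1) / Real.Wallis.W A) + Real.log ((1 + 1 / (2 * ((A + 1 : ℕ):ℝ))) ^ 2) := by
      rw [← Real.log_mul (by positivity) (by positivity)]
      congr 1
      push_cast
      field_simp
      ring
    rw [h1, h2]
    push_cast
    ring

theorem tendsto_sum_bb : Tendsto (fun A : ℕ => ∑ a ∈ Icc 1 A, bb a) atTop (nhds cs) := by
  have h1 : Tendsto (fun A : ℕ => (harmonic (A + 1) : ℝ) - Real.log ((A + 1 : ℕ) : ℝ)) atTop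
      (nhds Real.eulerMascheroniConstant) :=
    Real.tendsto_harmonic_sub_log.comp (tendsto_add_atTop_nat 1)
  have h2 : Tendsto (fun A : ℕ => Real.log (Real.Wallis.W A)) atTop (nhds (Real.log (Real.pi / 2))) := by
    apply (Real.continuousAt_log (by positivity)).tendsto.comp
    exact Real.Wallis.tendsto_W_nhds_pi_div_two
  have h3 : Tendsto (fun A : ℕ => Real.log ((2 * (A:ℝ) + 1) / ((A + 1 : ℕ) : ℝ))) atTop
      (nhds (Real.log 2)) := by
    apply (Real.continuousAt_log (by norm_num)).tendsto.comp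
    have h4 : Tendsto (fun A : ℕ => 2 - 1 / ((A:ℝ) + 1)) atTop (nhds (2 - 0)) :=
      tendsto_const_nhds.sub tendsto_one_div_add_atTop_nhds_zero_nat
    rw [sub_zero] at h4
    refine h4.congr fun A => ?_
    push_cast
    field_simp
    ring
  have h5 : cs = Real.log 2 - Real.log (Real.pi / 2) - Real.eulerMascheroniConstant + 1 := by
    unfold cs
    have : Real.log (Real.pi / 4) = Real.log (Real.pi / 2) - Real.log 2 := by
      rw [← Real.log_div (by positivity) (by norm_num)]
      congr 1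
      ring
    rw [this]; ring
  rw [h5]
  refine (((h3.sub h2).sub h1).add_const 1).congr fun A => ?_
  rw [sum_bb]
  have hWpos := Real.Wallis.W_pos A
  rw [Real.log_div (by positivity) hWpos.ne', Real.log_div (by positivity) (by positivity)]
  ring

theorem sum_bb_le (A : ℕ) : ∑ a ∈ Icc 1 A, bb a ≤ cs := by
  refine ge_of_tendsto tendsto_sum_bb ?_
  filter_upwards [eventually_ge_atTop A] with B hB
  refine Finset.sum_le_sum_of_subset_of_nonneg (Finset.Icc_subset_Icc_right hB) fun a ha _ => ?_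
  exact bb_nonneg (mem_Icc.mp ha).1

theorem cs_nonneg : 0 ≤ cs := by
  have := sum_bb_le 0
  simpa using this

theorem exp_cs : Real.exp cs = 4 * Real.exp (1 - Real.eulerMascheroniConstant) / Real.pi := by
  unfold cs
  rw [Real.exp_sub, Real.exp_log (by positivity)]
  field_simp

end Pool.Agent.ESF
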