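import Pool.Agent.ESF.Defs

/-!
# ESF.Crt: periodic functions: Chinese remainder theorem for sums, shift invariance, partial sums
-/

namespace Pool.Agent.ESF

open Finset

/-- a function of period `P` has period `P * c` -/
theorem per_mul {α : Type*} {f : ℕ → α} {P : ℕ} (hf : ∀ t, f (t + P) = f t) (c t : ℕ) :
    f (t + P * c) = f t := by
  induction c with
  | zero => simp
  | succ c ih => rw [Nat.mul_succ, ← add_assoc, hf, ih]

theorem per_mod {α : Type*} {f : ℕ → α} {P : ℕ} (hf : ∀ t, f (t + P) = f t) (t : ℕ) :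
    f (t % P) = f t := by
  conv_rhs => rw [← Nat.mod_add_div t P]
  rw [per_mul hf]

/-- sum over a complete period is shift invariant -/
theorem sum_shift {f : ℕ → ℝ} {P : ℕ} (hf : ∀ t, f (t + P) = f t) (c : ℕ) :
    ∑ t ∈ range P, f (t + c) = ∑ t ∈ range P, f t := by
  induction c with
  | zero => simp
  | succ c ih =>
    have h1 := Finset.sum_range_succ (fun t => f (t + c)) P
    have h2 := Finset.sum_range_succ' (fun t => f (t + c)) P
    have h3 : f (P + c) = f (0 + c) := by
      rw [add_comm P c, hf, zero_add]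
    have h4 : ∀ t, f (t + (c + 1)) = f (t + 1 + c) := fun t => by congr 1; ring
    simp only [h4]
    rw [h1] at h2
    simp only [h3] at h2
    linarith

/-- sum over `c` periods -/
theorem sum_mul_period {f : ℕ → ℝ} {P : ℕ} (hf : ∀ t, f (t + P) = f t) (c : ℕ) :
    ∑ t ∈ range (P * c), f t = c * ∑ t ∈ range P, f t := by
  induction c with
  | zero => simp
  | succ c ih =>
    rw [Nat.mul_succ, Finset.sum_range_add, ih]
    have : ∀ t, f (P * c + t) = f t := fun t => by rw [add_comm, per_mul hf]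
    simp only [this]
    push_cast; ring

/-- partial sums of a bounded periodic function -/
theorem sum_partial {f : ℕ → ℝ} {P : ℕ} (hP : 0 < P) (hf : ∀ t, f (t + P) = f t)
    (hb : ∀ t, |f t| ≤ 1) (T : ℕ) :
    |∑ t ∈ range T, f t - (T : ℝ) * ((∑ t ∈ range P, f t) / P)| ≤ 2 * P := by
  set m := T / P with hm
  set r := T % P with hr
  have hT : T = P * m + r := (Nat.div_add_mod T P).symm
  have hrP : r < P := Nat.mod_lt _ hP
  have h1 : ∑ t ∈ range T, f t = m * ∑ t ∈ range P, f t + ∑ t ∈ range r, f t := by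
    rw [hT, Finset.sum_range_add, sum_mul_period hf]
    have : ∀ t, f (P * m + t) = f t := fun t => by rw [add_comm, per_mul hf]
    simp only [this]
  have hPr : (0:ℝ) < P := by exact_mod_cast hP
  set Sg := ∑ t ∈ range P, f t with hS
  have hSle : |Sg| ≤ P := by
    calc |Sg| ≤ ∑ t ∈ range P, |f t| := Finset.abs_sum_le_sum_abs _ _
      _ ≤ ∑ t ∈ range P, (1:ℝ) := Finset.sum_le_sum fun t _ => hb t
      _ = P := by simp
  have hrle : |∑ t ∈ range r, f t| ≤ P := by
    calc |∑ t ∈ range r, f t| ≤ ∑ t ∈ range r, |f t| := Finset.abs_sum_le_sum_abs _ _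
      _ ≤ ∑ t ∈ range r, (1:ℝ) := Finset.sum_le_sum fun t _ => hb t
      _ = r := by simp
      _ ≤ P := by exact_mod_cast hrP.le
  have hTr : (T:ℝ) = P * m + r := by exact_mod_cast hT
  have h2 : ∑ t ∈ range T, f t - (T : ℝ) * (Sg / P) = ∑ t ∈ range r, f t - r / P * Sg := by
    rw [h1, hTr]; field_simp; ring
  rw [h2]
  have h3 : |(r:ℝ) / P * Sg| ≤ P := by
    rw [abs_mul, abs_of_nonneg (by positivity)]
    have : (r:ℝ) / P ≤ 1 := by
      rw [div_le_one hPr]; exact_mod_cast hrP.le
    calc (r:ℝ) / P * |Sg| ≤ 1 * P := mul_le_mul this hSle (abs_nonneg _) zero_le_one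
      _ = P := one_mul _
  calc |∑ t ∈ range r, f t - r / P * Sg| ≤ |∑ t ∈ range r, f t| + |(r:ℝ) / P * Sg| := abs_sub _ _
    _ ≤ 2 * P := by linarith

/-- Chinese remainder theorem for two coprime moduli -/
theorem sum_mul_coprime {m n : ℕ} (hm : 0 < m) (hn : 0 < n) (hmn : m.Coprime n) {f h : ℕ → ℝ}
    (hf : ∀ t, f (t + m) = f t) (hh : ∀ t, h (t + n) = h t) :
    ∑ t ∈ range (m * n), f t * h t = (∑ t ∈ range m, f t) * ∑ t ∈ range n, h t := by
  rw [Finset.sum_mul_sum, ← Finset.sum_product']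
  refine Finset.sum_bij' (fun t _ => (t % m, t % n))
    (fun x _ => (Nat.chineseRemainder hmn x.1 x.2 : ℕ)) ?_ ?_ ?_ ?_ ?_
  · intro t _
    simp only [mem_product, mem_range]
    exact ⟨Nat.mod_lt _ hm, Nat.mod_lt _ hn⟩
  · intro x _
    simp only [mem_range]
    exact Nat.chineseRemainder_lt_mul hmn _ _ hm.ne' hn.ne'
  · intro t ht
    have ht' := mem_range.mp ht
    have h1 := (Nat.chineseRemainder hmn (t % m) (t % n)).2
    have h2 : (Nat.chineseRemainder hmn (t % m) (t % n) : ℕ) ≡ t [MOD m * n] := by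
      rw [← Nat.modEq_and_modEq_iff_modEq_mul hmn]
      exact ⟨h1.1.trans (Nat.mod_modEq _ _), h1.2.trans (Nat.mod_modEq _ _)⟩
    have h3 := Nat.chineseRemainder_lt_mul hmn (t % m) (t % n) hm.ne' hn.ne'
    exact Nat.ModEq.eq_of_lt_of_lt h2 h3 ht'
  · intro x hx
    simp only [mem_product, mem_range] at hx
    have h1 := (Nat.chineseRemainder hmn x.1 x.2).2
    refine Prod.ext ?_ ?_
    · have h2 : (Nat.chineseRemainder hmn x.1 x.2 : ℕ) % m = x.1 % m := h1.1
      rw [Nat.mod_eq_of_lt hx.1] at h2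
      exact h2
    · have h2 : (Nat.chineseRemainder hmn x.1 x.2 : ℕ) % n = x.2 % n := h1.2
      rw [Nat.mod_eq_of_lt hx.2] at h2
      exact h2
  · intro t _
    rw [per_mod hf, per_mod hh]

/-- Chinese remainder theorem for a product of functions, one for every prime in `U`. -/
theorem sum_prod (U : Finset ℕ) (hU : ∀ q ∈ U, q.Prime) (f : ℕ → ℕ → ℝ)
    (hf : ∀ q ∈ U, ∀ t, f q (t + q) = f q t) :
    ∑ t ∈ range (∏ q ∈ U, q), ∏ q ∈ U, f q t = ∏ q ∈ U, ∑ t ∈ range q, f q t := by
  induction U using Finset.induction_on with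
  | empty => simp
  | insert q U hq ih =>
    have hqp := hU q (mem_insert_self _ _)
    have hU' : ∀ p ∈ U, p.Prime := fun p hp => hU p (mem_insert_of_mem hp)
    rw [Finset.prod_insert hq, Finset.prod_insert hq, ← ih hU' fun p hp => hf p (mem_insert_of_mem hp)]
    have hcop : q.Coprime (∏ p ∈ U, p) := by
      refine Nat.Coprime.prod_right fun p hp => ?_
      exact (Nat.coprime_primes hqp (hU' p hp)).mpr (fun h => hq (h ▸ hp))
    have hpos : 0 < ∏ p ∈ U, p := Finset.prod_pos fun p hp => (hU' p hp).pos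
    simp only [Finset.prod_insert hq]
    refine sum_mul_coprime hqp.pos hpos hcop (hf q (mem_insert_self _ _)) ?_
    intro t
    refine Finset.prod_congr rfl fun p hp => ?_
    obtain ⟨c, hc⟩ := Finset.dvd_prod_of_mem (fun p => p) hp
    have hc' : ∏ p ∈ U, p = p * c := hc
    rw [hc', per_mul (hf p (mem_insert_of_mem hp))]

end Pool.Agent.ESF
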