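import Mathlib

/-!
# ESF.Defs: the Erdős–Selfridge function and the objects of the sieve
-/

namespace Pool.Agent.ESF

/-- The Erdős–Selfridge function: the least `n > k + 1` such that every prime divisor of
`n.choose k` is larger than `k`. -/
noncomputable def g (k : ℕ) : ℕ :=
  sInf {n : ℕ | k + 1 < n ∧ ∀ p : ℕ, p.Prime → p ∣ n.choose k → k < p}

/-- `φ_p(k) = min (1, 2 {k/p})`. -/
noncomputable def phi (p k : ℕ) : ℝ := min 1 (2 * ((k % p : ℕ) : ℝ) / p)

/-- `S(k) = ∑_{p ≤ k} φ_p(k) log p`. -/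
noncomputable def S (k : ℕ) : ℝ := ∑ p ∈ Nat.primesLE k, phi p k * Real.log p

open Classical in
/-- the centred and normalised violation function of one modulus -/
noncomputable def psi (v : ℕ → ℕ → Prop) (u : ℕ → ℝ) (q t : ℕ) : ℝ :=
  if v q t then -1 else u q / (1 - u q)

/-- products of the `psi` -/
noncomputable def Psi (v : ℕ → ℕ → Prop) (u : ℕ → ℝ) (A : Finset ℕ) (t : ℕ) : ℝ :=
  ∏ q ∈ A, psi v u q t

/-- the weights (squared norms of `Psi`) -/
noncomputable def w (u : ℕ → ℝ) (A : Finset ℕ) : ℝ := ∏ q ∈ A, u q / (1 - u q)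

/-- truncated weight function -/
noncomputable def F (v : ℕ → ℕ → Prop) (u : ℕ → ℝ) (U : Finset ℕ) (d t : ℕ) : ℝ :=
  ∑ A ∈ U.powerset.filter (fun A => A.card ≤ d), Psi v u A t

/-- sum of the weights of the sets with at most `d` elements -/
noncomputable def Wle (u : ℕ → ℝ) (U : Finset ℕ) (d : ℕ) : ℝ :=
  ∑ A ∈ U.powerset.filter (fun A => A.card ≤ d), w u A

/-- sum of the weights of the sets with more than `d` elements -/
noncomputable def Wgt (u : ℕ → ℝ) (U : Finset ℕ) (d : ℕ) : ℝ :=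
  ∑ A ∈ U.powerset.filter (fun A => d < A.card), w u A

end Pool.Agent.ESF
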