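import Pool.Agent.ESF.Orth

/-!
# ESF.Energy: the truncated product almost vanishes on the violations
-/

namespace Pool.Agent.ESF

open Finset

variable {U : Finset ℕ} {v : ℕ → ℕ → Prop} {u : ℕ → ℝ}

/-- squared norm of a sum of `Psi` over a family -/
theorem sum_sq_family (h : Hyp U v u) (𝒜 : Finset (Finset ℕ)) (h𝒜 : ∀ A ∈ 𝒜, A ⊆ U) :
    ∑ t ∈ range (∏ q ∈ U, q), (∑ A ∈ 𝒜, Psi v u A t) * (∑ A ∈ 𝒜, Psi v u A t) =
      ((∏ q ∈ U, q : ℕ) : ℝ) * ∑ A ∈ 𝒜, w u A := by
  simp only [Finset.sum_mul_sum]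
  rw [Finset.sum_comm]
  have : ∀ A ∈ 𝒜, ∑ t ∈ range (∏ q ∈ U, q), ∑ B ∈ 𝒜, Psi v u A t * Psi v u B t =
      ((∏ q ∈ U, q : ℕ) : ℝ) * w u A := by
    intro A hA
    rw [Finset.sum_comm]
    have h2 : ∀ B ∈ 𝒜, ∑ t ∈ range (∏ q ∈ U, q), Psi v u A t * Psi v u B t =
        if A = B then ((∏ q ∈ U, q : ℕ) : ℝ) * w u A else 0 :=
      fun B hB => Psi_orth h (h𝒜 A hA) (h𝒜 B hB)
    rw [Finset.sum_congr rfl h2, Finset.sum_ite_eq, if_pos hA]
  rw [Finset.sum_congr rfl this, Finset.mul_sum]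

theorem sum_F_sq (h : Hyp U v u) (d : ℕ) :
    ∑ t ∈ range (∏ q ∈ U, q), F v u U d t * F v u U d t =
      ((∏ q ∈ U, q : ℕ) : ℝ) * Wle u U d := by
  unfold F Wle
  exact sum_sq_family h _ fun A hA => (mem_powerset.mp (mem_filter.mp hA).1)

theorem full_eq_zero {q t : ℕ} (hq : q ∈ U) (hv : v q t) : ∑ A ∈ U.powerset, Psi v u A t = 0 := by
  have h1 : ∑ A ∈ U.powerset, Psi v u A t = ∏ q ∈ U, (psi v u q t + 1) := by
    rw [Finset.prod_add_one]
    rfl
  rw [h1]
  apply Finset.prod_eq_zero hq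
  unfold psi
  simp [hv]

open Classical in
theorem energy (h : Hyp U v u) (d : ℕ) {q : ℕ} (hq : q ∈ U) :
    ∑ t ∈ range (∏ q ∈ U, q), F v u U d t * F v u U d t * (if v q t then 1 else 0) ≤
      ((∏ q ∈ U, q : ℕ) : ℝ) * Wgt u U d := by
  set R : ℕ → ℝ := fun t => ∑ A ∈ U.powerset.filter (fun A => d < A.card), Psi v u A t with hR
  have h1 : ∀ t, F v u U d t + R t = ∑ A ∈ U.powerset, Psi v u A t := by
    intro t
    rw [hR]
    unfold F
    have := Finset.sum_filter_add_sum_filter_not U.powerset (fun A => A.card ≤ d)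
      (fun A => Psi v u A t)
    simpa only [not_le] using this
  have h2 : ∀ t, F v u U d t * F v u U d t * (if v q t then 1 else 0) ≤ R t * R t := by
    intro t
    by_cases hv : v q t
    · have h3 := h1 t
      rw [full_eq_zero hq hv] at h3
      have h4 : F v u U d t = - R t := by linarith
      rw [h4, if_pos hv]
      linarith
    · rw [if_neg hv, mul_zero]
      exact mul_self_nonneg _
  calc _ ≤ ∑ t ∈ range (∏ q ∈ U, q), R t * R t := Finset.sum_le_sum fun t _ => h2 t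
    _ = _ := by
      rw [hR]
      unfold Wgt
      exact sum_sq_family h _ fun A hA => (mem_powerset.mp (mem_filter.mp hA).1)

theorem w_nonneg (h : Hyp U v u) {A : Finset ℕ} (hA : A ⊆ U) : 0 ≤ w u A := by
  unfold w
  refine Finset.prod_nonneg fun q hq => ?_
  have h0 := h.nonneg q (hA hq)
  have h1 := h.le_half q (hA hq)
  exact div_nonneg h0 (by linarith)

theorem one_le_Wle (h : Hyp U v u) (d : ℕ) : 1 ≤ Wle u U d := by
  unfold Wle
  have h1 : (∅ : Finset ℕ) ∈ U.powerset.filter (fun A => A.card ≤ d) := by simp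
  have h2 := Finset.single_le_sum (f := fun A => w u A)
    (fun A hA => w_nonneg h (mem_powerset.mp (mem_filter.mp hA).1)) h1
  have h3 : w u ∅ = 1 := by simp [w]
  simpa [h3] using h2

end Pool.Agent.ESF
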