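import Pool.Agent.ESF.Cheb

/-!
# ESF.PartA: the upper bound for `g k`
-/

namespace Pool.Agent.ESF

open Finset Filter

theorem ev_div_log (η : ℝ) (hη : 0 < η) : ∀ᶠ k : ℕ in atTop, (k : ℝ) / Real.log k ≤ η * k := by
  have h1 : Tendsto (fun k : ℕ => Real.log (k : ℝ)) atTop atTop :=
    Real.tendsto_log_atTop.comp tendsto_natCast_atTop_atTop
  filter_upwards [h1.eventually_ge_atTop (1 / η), eventually_ge_atTop 2] with k hk hk2
  have hlog : 0 < Real.log k := Real.log_pos (by exact_mod_cast (by omega : 1 < k))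
  have hk0 : (0:ℝ) ≤ k := Nat.cast_nonneg _
  rw [div_le_iff₀ hlog]
  have : 1 ≤ η * Real.log k := by
    rw [div_le_iff₀ hη] at hk
    linarith
  nlinarith

theorem ev_log (η : ℝ) (hη : 0 < η) : ∀ᶠ k : ℕ in atTop, Real.log k ≤ η * k := by
  have h1 := Real.isLittleO_log_id_atTop.def hη
  have h2 := tendsto_natCast_atTop_atTop (R := ℝ) |>.eventually h1
  filter_upwards [h2] with k hk
  simp only [id, Real.norm_eq_abs, abs_of_nonneg (Nat.cast_nonneg k : (0:ℝ) ≤ k)] at hk
  exact (le_abs_self _).trans hk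

theorem ev_loglog (η : ℝ) (hη : 0 < η) :
    ∀ᶠ k : ℕ in atTop, 2 * (k : ℝ) * Real.log (Real.log k) / Real.log k ≤ η * k := by
  have h0 : Tendsto (fun k : ℕ => Real.log (k : ℝ)) atTop atTop :=
    Real.tendsto_log_atTop.comp tendsto_natCast_atTop_atTop
  have h1 := Real.isLittleO_log_id_atTop.def (show 0 < η / 2 by positivity)
  have h2 := h0.eventually h1
  filter_upwards [h2, h0.eventually_ge_atTop 1] with k hk hk1
  have hlog : 0 < Real.log k := by linarith
  simp only [id, Real.norm_eq_abs, abs_of_nonneg hlog.le] at hk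
  have h3 : Real.log (Real.log k) ≤ η / 2 * Real.log k := (le_abs_self _).trans hk
  rw [div_le_iff₀ hlog]
  have hk0 : (0:ℝ) ≤ k := Nat.cast_nonneg _
  nlinarith

theorem ev_const (c η : ℝ) (hη : 0 < η) : ∀ᶠ k : ℕ in atTop, c ≤ η * k := by
  have h1 := tendsto_natCast_atTop_atTop (R := ℝ) |>.eventually_ge_atTop (c / η)
  filter_upwards [h1] with k hk
  rw [div_le_iff₀ hη] at hk
  linarith

theorem ev_sqrt : ∀ᶠ k : ℕ in atTop, Real.log k ≤ 24 * Real.sqrt k := by
  have h1 := (isLittleO_log_rpow_atTop (show (0:ℝ) < 1/2 by norm_num)).def (show (0:ℝ) < 24 by norm_num)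
  have h2 := tendsto_natCast_atTop_atTop (R := ℝ) |>.eventually h1
  filter_upwards [h2] with k hk
  rw [← Real.sqrt_eq_rpow] at hk
  simp only [Real.norm_eq_abs, abs_of_nonneg (Real.sqrt_nonneg _)] at hk
  exact (le_abs_self _).trans hk

/-- the small part of the modulus -/
theorem log_small (k y : ℕ) (hk : 1 ≤ k) (hyk : y ≤ k) :
    Real.log ((∏ q ∈ Nat.primesLE y, q ^ (Nat.log q k + 1) : ℕ) : ℝ) ≤
      2 * (Nat.primesLE y).card * Real.log k := by
  push_cast
  rw [Real.log_prod (fun q hq => by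
    have := (Nat.mem_primesLE.mp hq).2.pos
    positivity)]
  calc _ ≤ ∑ q ∈ Nat.primesLE y, 2 * Real.log k := by
        refine Finset.sum_le_sum fun q hq => ?_
        have hq' := Nat.mem_primesLE.mp hq
        have hq0 : (0:ℝ) < q := by exact_mod_cast hq'.2.pos
        rw [pow_succ, Real.log_mul (by positivity) (by positivity)]
        have h1 : ((q : ℝ) ^ (Nat.log q k)) ≤ k := by
          exact_mod_cast Nat.pow_log_le_self q (by omega)
        have h2 : Real.log ((q : ℝ) ^ (Nat.log q k)) ≤ Real.log k :=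
          Real.log_le_log (by positivity) h1
        have h3 : Real.log q ≤ Real.log k :=
          Real.log_le_log hq0 (by exact_mod_cast hq'.1.trans hyk)
        linarith
    _ = _ := by rw [Finset.sum_const, nsmul_eq_mul]; ring

/-- The cost of the large primes is at most `S k`. -/
theorem cost_le (k y : ℕ) :
    ∑ q ∈ Cs k y, Real.log q + 2 * ∑ q ∈ Us k y, ((k % q : ℕ) : ℝ) / q * Real.log q ≤ S k := by
  have h1 : ∑ q ∈ Cs k y, Real.log q = ∑ q ∈ Cs k y, phi q k * Real.log q := by
    refine Finset.sum_congr rfl fun q hq => ?_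
    have hq0 : (0:ℝ) < q := by exact_mod_cast (Pm_prime q (Cs_sub k y hq)).pos
    have h2 := (mem_filter.mp hq).2
    have h3 : (q : ℝ) ≤ 2 * ((k % q : ℕ) : ℝ) := by exact_mod_cast h2
    unfold phi
    rw [min_eq_left, one_mul]
    rwa [one_le_div hq0]
  have h2 : 2 * ∑ q ∈ Us k y, ((k % q : ℕ) : ℝ) / q * Real.log q =
      ∑ q ∈ Us k y, phi q k * Real.log q := by
    rw [Finset.mul_sum]
    refine Finset.sum_congr rfl fun q hq => ?_
    have hq0 : (0:ℝ) < q := by exact_mod_cast (Pm_prime q (Us_sub k y hq)).pos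
    have h2 := (mem_filter.mp hq).2
    have h3 : 2 * ((k % q : ℕ) : ℝ) ≤ q := by exact_mod_cast h2.le
    unfold phi
    rw [min_eq_right]
    · ring
    · rwa [div_le_one hq0]
  have hdisj : Disjoint (Cs k y) (Us k y) := by
    rw [Finset.disjoint_left]
    intro q h3 h4
    exact not_mem_Cs_of_Us h4 h3
  rw [h1, h2, ← Finset.sum_union hdisj]
  unfold S
  refine Finset.sum_le_sum_of_subset_of_nonneg ?_ ?_
  · intro q hq
    rcases mem_union.mp hq with hq | hq
    · exact (mem_filter.mp (Cs_sub k y hq)).1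
    · exact (mem_filter.mp (Us_sub k y hq)).1
  · intro q _ _
    refine mul_nonneg ?_ (Real.log_natCast_nonneg q)
    unfold phi
    exact le_min zero_le_one (by positivity)

set_option maxHeartbeats 1000000 in
/-- **The upper bound.** -/
theorem partA (ε : ℝ) (hε : 0 < ε) : ∀ᶠ k : ℕ in atTop, Real.log (g k) ≤ S k + ε * k := by
  set δ : ℝ := min 1 (ε / 16) with hδdef
  have hδ : 0 < δ := by positivity
  have hδ1 : δ ≤ 1 := min_le_left _ _
  have hδε : δ ≤ ε / 16 := min_le_right _ _
  set c : ℝ := 2 / δ * Real.log (32 / δ ^ 2) with hc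
  have hc0 : 0 ≤ c := by
    have hδ2 : 0 < δ ^ 2 := by positivity
    have hδ3 : δ ^ 2 ≤ 1 := by nlinarith
    have : 0 ≤ Real.log (32 / δ ^ 2) := by
      apply Real.log_nonneg
      rw [le_div_iff₀ hδ2]
      linarith
    positivity
  have htend : Tendsto (fun k : ℕ => ⌈24 * (k:ℝ) / Real.log k⌉₊) atTop atTop := by
    apply tendsto_nat_ceil_atTop.comp
    have h1 : Tendsto (fun x : ℝ => x / Real.log x) atTop atTop := by
      have h2 := Real.isLittleO_log_id_atTop
      have h3 : Tendsto (fun x : ℝ => Real.log x / x) atTop (nhds 0) := h2.tendsto_div_nhds_zero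
      have h4 : Tendsto (fun x : ℝ => Real.log x / x) atTop (nhdsWithin 0 (Set.Ioi 0)) := by
        rw [tendsto_nhdsWithin_iff]
        refine ⟨h3, ?_⟩
        filter_upwards [eventually_gt_atTop 1] with x hx
        exact div_pos (Real.log_pos hx) (by linarith)
      have h5 := h4.inv_tendsto_nhdsGT_zero
      refine h5.congr fun x => ?_
      simp [inv_div]
    have h2 : Tendsto (fun x : ℝ => 24 * x / Real.log x) atTop atTop := by
      have := h1.const_mul_atTop (show (0:ℝ) < 24 by norm_num)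
      refine this.congr fun x => by ring
    exact h2.comp tendsto_natCast_atTop_atTop
  have hlogt : Tendsto (fun k : ℕ => Real.log (k : ℝ)) atTop atTop :=
    Real.tendsto_log_atTop.comp tendsto_natCast_atTop_atTop
  filter_upwards [htend.eventually eventually_pi, htend.eventually_ge_atTop 3, eventually_pi,
    eventually_ge_atTop 3, hlogt.eventually_ge_atTop 48, ev_sqrt,
    ev_div_log (ε / 16 / 195) (by positivity), ev_log (ε / 16 / (2 * c + 5)) (by positivity),
    ev_loglog (ε / 16) (by positivity), ev_const 21 (ε / 16) (by positivity)] with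
    k hpiy hy3 hpik hk3 hlog48 hsqrt he1 he2 he3 he4
  set y : ℕ := ⌈24 * (k:ℝ) / Real.log k⌉₊ with hy
  set L : ℝ := Real.log k with hL
  have hL0 : 0 < L := by linarith
  have hk0 : (0:ℝ) < k := by exact_mod_cast (by omega : 0 < k)
  have hy0 : (0:ℝ) < y := by exact_mod_cast (by omega : 0 < y)
  have hylow : 24 * (k:ℝ) / L ≤ y := Nat.le_ceil _
  have hyup : (y : ℝ) ≤ 24 * k / L + 1 := (Nat.ceil_lt_add_one (by positivity)).le
  have hyk : y ≤ k := by
    have : (y : ℝ) ≤ k := by
      refine hyup.trans ?_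
      have h1 : 24 * (k:ℝ) / L ≤ k / 2 := by
        rw [div_le_div_iff₀ hL0 two_pos]
        nlinarith
      have h2 : (3:ℝ) ≤ k := by exact_mod_cast hk3
      linarith
    exact_mod_cast this
  have hsq : Real.sqrt k ≤ y := by
    refine le_trans ?_ hylow
    rw [le_div_iff₀ hL0]
    have h1 : Real.sqrt k * Real.sqrt k = k := Real.mul_self_sqrt hk0.le
    have h2 : 0 ≤ Real.sqrt k := Real.sqrt_nonneg _
    nlinarith
  have hly : L / 2 ≤ Real.log y := by
    have h1 : Real.log (Real.sqrt k) = L / 2 := by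
      rw [Real.log_sqrt hk0.le]
    rw [← h1]
    exact Real.log_le_log (Real.sqrt_pos.mpr hk0) hsq
  have hky : k < (y + 1) ^ 2 := by
    have h1 : (k:ℝ) < ((y:ℝ) + 1) ^ 2 := by
      have h2 : Real.sqrt k < y + 1 := by linarith
      have h3 : Real.sqrt k * Real.sqrt k = k := Real.mul_self_sqrt hk0.le
      have h4 : 0 ≤ Real.sqrt k := Real.sqrt_nonneg _
      nlinarith
    exact_mod_cast h1
  -- the digits
  have hlog4 : Real.log 4 ≤ 3 / 2 := by
    have : Real.log 4 = 2 * Real.log 2 := by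
      rw [show (4:ℝ) = 2 ^ 2 by norm_num, Real.log_pow]; push_cast; ring
    rw [this]
    have := Real.log_two_lt_d9
    linarith
  have hlog4' : 0 < Real.log 4 := Real.log_pos (by norm_num)
  have ha : ∑ q ∈ Pm k y, ((k / q : ℕ) : ℝ) / q ≤ 1 / 4 := by
    refine (sum_digit y k (by omega)).trans ?_
    have h1 : 0 < Real.log y := by linarith
    have hden : 12 * (k:ℝ) ≤ (y + 1) * Real.log y := by
      have h2 : 24 * (k:ℝ) / L * (L / 2) ≤ y * Real.log y :=
        mul_le_mul hylow hly (by positivity) hy0.le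
      have h3 : 24 * (k:ℝ) / L * (L / 2) = 12 * k := by field_simp; norm_num
      nlinarith
    rw [div_le_div_iff₀ (by positivity) (by norm_num)]
    nlinarith
  -- cardinalities
  set N : ℝ := ((Us k y).card : ℝ) with hN
  set M : ℝ := ((Pm k y).card : ℝ) with hM
  have hN0 : 0 ≤ N := Nat.cast_nonneg _
  have hNM : N ≤ M := by
    rw [hN, hM]
    exact_mod_cast Finset.card_le_card (Us_sub k y)
  have hMpi : M ≤ ((Nat.primesLE k).card : ℝ) := by
    rw [hM]
    exact_mod_cast Finset.card_le_card (Finset.filter_subset _ _)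
  have hML : M * L ≤ 2 * k := (mul_le_mul_of_nonneg_right hMpi hL0.le).trans hpik
  have hNL : N * L ≤ 2 * k := (mul_le_mul_of_nonneg_right hNM hL0.le).trans hML
  have hMk : M ≤ k := by
    have : M * 48 ≤ M * L := mul_le_mul_of_nonneg_left hlog48 (hN0.trans hNM)
    linarith
  -- degree
  set u : ℕ → ℝ := fun q => ((k % q : ℕ) : ℝ) / q with hu
  set E : ℝ := ∑ q ∈ Us k y, u q with hE
  have hE0 : 0 ≤ E := Finset.sum_nonneg (hyp k y).nonneg
  set d : ℕ := ⌈E + δ * N + c⌉₊ with hd
  have hdlow : E + δ * N + c ≤ d := Nat.le_ceil _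
  have hdup : (d : ℝ) ≤ E + δ * N + c + 1 := (Nat.ceil_lt_add_one (by positivity)).le
  have htail := tail (hyp k y) δ hδ hδ1 d hdlow
  set T0 : ℕ := 4 ^ ((Us k y).card + 1) * (1 + (Us k y).card + (Pm k y).card) * k ^ (2 * d + 2) with hT0
  have hT0pos : 0 < T0 := by positivity
  have hg := g_le_of_sieve (by omega : 2 ≤ k) hky hy3 d (T0 + 1) htail ha (Nat.lt_succ_self _)
  have hRpos := R_pos k y
  have hgR : Real.log (g k) ≤ Real.log (R k y) + Real.log ((T0 + 1 : ℕ) : ℝ) := by
    rw [← Real.log_mul (by positivity) (by positivity)]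
    rcases Nat.eq_zero_or_pos (g k) with h0 | h0
    · rw [h0]
      simp only [Nat.cast_zero, Real.log_zero]
      apply Real.log_nonneg
      have : 1 ≤ R k y * (T0 + 1) := Nat.mul_pos hRpos (Nat.succ_pos _)
      exact_mod_cast this
    · apply Real.log_le_log (by exact_mod_cast h0)
      exact_mod_cast hg
  -- log R
  have hlogR : Real.log (R k y) ≤ 2 * (Nat.primesLE y).card * L + ∑ q ∈ Cs k y, Real.log q := by
    unfold R
    have p1 : 0 < ∏ q ∈ Nat.primesLE y, q ^ (Nat.log q k + 1) :=
      Finset.prod_pos fun p hp => pow_pos (Nat.mem_primesLE.mp hp).2.pos _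
    have p2 : 0 < ∏ q ∈ Cs k y, q := Finset.prod_pos fun p hp => (Pm_prime p (Cs_sub k y hp)).pos
    rw [Nat.cast_mul, Real.log_mul (by positivity) (by positivity)]
    have h1 := log_small k y (by omega) hyk
    have h2 : Real.log ((∏ q ∈ Cs k y, q : ℕ) : ℝ) = ∑ q ∈ Cs k y, Real.log q := by
      push_cast
      rw [Real.log_prod (fun q hq => by
        have := (Pm_prime q (Cs_sub k y hq)).pos
        positivity)]
    rw [h2]
    linarith
  have hpiyL : 2 * ((Nat.primesLE y).card : ℝ) * L ≤ 192 * k / L + 8 := by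
    have h1 : ((Nat.primesLE y).card : ℝ) * (L / 2) ≤ 2 * y :=
      (mul_le_mul_of_nonneg_left hly (Nat.cast_nonneg _)).trans hpiy
    have h2 : 8 * (24 * (k:ℝ) / L) = 192 * k / L := by ring
    linarith
  -- log T
  have hlogT : Real.log ((T0 + 1 : ℕ) : ℝ) ≤ 1 + (N + 1) * (3 / 2) + (L + 2) + (2 * d + 2) * L := by
    have h1 : ((T0 + 1 : ℕ) : ℝ) ≤ 2 * (4 ^ ((Us k y).card + 1) * (3 * k) * (k : ℝ) ^ (2 * d + 2)) := by
      have h2 : (T0 : ℝ) = 4 ^ ((Us k y).card + 1) * (1 + N + M) * (k : ℝ) ^ (2 * d + 2) := by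
        rw [hT0]; push_cast; rfl
      have h3 : (1:ℝ) ≤ T0 := by exact_mod_cast hT0pos
      have h4 : 1 + N + M ≤ 3 * k := by
        have : (1:ℝ) ≤ k := by exact_mod_cast (by omega : 1 ≤ k)
        linarith
      have h5 : (T0 : ℝ) ≤ 4 ^ ((Us k y).card + 1) * (3 * k) * (k : ℝ) ^ (2 * d + 2) := by
        rw [h2]
        gcongr
      push_cast
      linarith
    have h6 : Real.log (2 * (4 ^ ((Us k y).card + 1) * (3 * k) * (k : ℝ) ^ (2 * d + 2))) =
        Real.log 2 + ((N + 1) * Real.log 4 + (Real.log 3 + L) + (2 * d + 2) * L) := by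
      rw [Real.log_mul (by norm_num) (by positivity), Real.log_mul (by positivity) (by positivity),
        Real.log_mul (by positivity) (by positivity), Real.log_mul (by norm_num) (by positivity),
        Real.log_pow, Real.log_pow]
      push_cast
      ring
    have h7 : Real.log 3 ≤ 2 := by
      have := Real.log_le_sub_one_of_pos (show (0:ℝ) < 3 by norm_num)
      linarith
    have h8 : Real.log 2 ≤ 1 := by
      have := Real.log_le_sub_one_of_pos (show (0:ℝ) < 2 by norm_num)
      linarith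
    have h9 : (N + 1) * Real.log 4 ≤ (N + 1) * (3 / 2) := mul_le_mul_of_nonneg_left hlog4 (by linarith)
    calc _ ≤ Real.log (2 * (4 ^ ((Us k y).card + 1) * (3 * k) * (k : ℝ) ^ (2 * d + 2))) :=
          Real.log_le_log (by positivity) h1
      _ ≤ _ := by rw [h6]; linarith
  -- the main term
  have hEL : 2 * (E * L) ≤ 2 * ∑ q ∈ Us k y, u q * Real.log q + 2 * k * Real.log L / L := by
    have h1 : E * L ≤ ∑ q ∈ Us k y, u q * Real.log q + N * (1 / 2 * Real.log L) := by
      rw [hE, Finset.sum_mul]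
      have h2 : N * (1 / 2 * Real.log L) = ∑ q ∈ Us k y, (1 / 2 * Real.log L) := by
        rw [Finset.sum_const, nsmul_eq_mul]
      rw [h2, ← Finset.sum_add_distrib]
      refine Finset.sum_le_sum fun q hq => ?_
      have hu0 := (hyp k y).nonneg q hq
      have hu1 := (hyp k y).le_half q hq
      have hq' := mem_Pm.mp (Us_sub k y hq)
      have h3 : Real.log y ≤ Real.log q :=
        Real.log_le_log hy0 (by exact_mod_cast hq'.2.2.le)
      have h4 : L - Real.log L ≤ Real.log y := by
        have h5 : Real.log (k / L) = L - Real.log L := by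
          rw [Real.log_div hk0.ne' hL0.ne']
        rw [← h5]
        apply Real.log_le_log (by positivity)
        refine le_trans ?_ hylow
        have : 0 ≤ (k:ℝ) / L := by positivity
        have h6 : 24 * (k:ℝ) / L = 24 * (k / L) := by ring
        rw [h6]
        linarith
      have hlL : 0 ≤ Real.log L := Real.log_nonneg (by linarith)
      have h7 : u q * (L - Real.log q) ≤ 1 / 2 * Real.log L := by
        have h8 : L - Real.log q ≤ Real.log L := by linarith
        calc u q * (L - Real.log q) ≤ u q * Real.log L := mul_le_mul_of_nonneg_left h8 hu0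
          _ ≤ _ := mul_le_mul_of_nonneg_right hu1 hlL
      linarith
    have hlL : 0 ≤ Real.log L := Real.log_nonneg (by linarith)
    have h3 : N * Real.log L ≤ 2 * k * Real.log L / L := by
      rw [le_div_iff₀ hL0]
      nlinarith
    linarith
  have hcost := cost_le k y
  have hcost' : ∑ q ∈ Cs k y, Real.log q + 2 * ∑ q ∈ Us k y, u q * Real.log q ≤ S k := hcost
  have hdL : (2 * (d : ℝ) + 2) * L ≤ 2 * (E * L) + 4 * δ * k + (2 * c + 4) * L := by
    have h1 : (d : ℝ) * L ≤ (E + δ * N + c + 1) * L := mul_le_mul_of_nonneg_right hdup hL0.le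
    have h2 : δ * (N * L) ≤ δ * (2 * k) := mul_le_mul_of_nonneg_left hNL hδ.le
    nlinarith
  have hN' : N * (3 / 2) ≤ 3 * k / L := by
    rw [le_div_iff₀ hL0]
    linarith
  have hδk : 4 * δ * k ≤ ε / 4 * k := by
    have : 4 * δ ≤ ε / 4 := by linarith
    exact mul_le_mul_of_nonneg_right this hk0.le
  have hfin1 : 195 * (k:ℝ) / L ≤ ε / 16 * k := by
    have h1 : 195 * (k:ℝ) / L = 195 * (k / L) := by ring
    rw [h1]
    calc 195 * ((k:ℝ) / L) ≤ 195 * (ε / 16 / 195 * k) := mul_le_mul_of_nonneg_left he1 (by norm_num)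
      _ = _ := by ring
  have hfin2 : (2 * c + 5) * L ≤ ε / 16 * k := by
    have hc5 : 0 < 2 * c + 5 := by linarith
    calc (2 * c + 5) * L ≤ (2 * c + 5) * (ε / 16 / (2 * c + 5) * k) :=
          mul_le_mul_of_nonneg_left he2 hc5.le
      _ = _ := by field_simp
  have e1 : 192 * (k:ℝ) / L + 3 * k / L = 195 * k / L := by ring
  have hεk : 0 ≤ ε * k := by positivity
  linarith

end Pool.Agent.ESF
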