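import Pool.Agent.ESF.Avg
import Pool.Agent.ESF.PartA

/-!
# ESF.MainB: small ratios
-/

namespace Pool.Agent.ESF

open Finset Filter

/-- The defining set of `g k` is nonempty. -/
theorem g_set_nonempty (k : ℕ) :
    {n : ℕ | k + 1 < n ∧ ∀ p : ℕ, p.Prime → p ∣ n.choose k → k < p}.Nonempty := by
  set P := ∏ q ∈ Nat.primesLE k, q ^ (Nat.log q k + 1) with hP
  have hPpos : 0 < P := Finset.prod_pos fun p hp => pow_pos (Nat.mem_primesLE.mp hp).2.pos _
  refine ⟨P * (k + 3) - 1, ?_, ?_⟩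
  · have : 1 * (k + 3) ≤ P * (k + 3) := Nat.mul_le_mul_right _ hPpos
    omega
  · intro p hp hdvd
    by_contra hcon
    push Not at hcon
    refine not_dvd_choose_of_mod p hp (Nat.log p k + 1) _ k
      (Nat.lt_pow_succ_log_self hp.one_lt k) ?_ hdvd
    have h1 : P * (k + 3) - 1 + 1 = P * (k + 3) := by
      have : 1 * (k + 3) ≤ P * (k + 3) := Nat.mul_le_mul_right _ hPpos
      omega
    rw [h1]
    have : p ^ (Nat.log p k + 1) ∣ P :=
      Finset.dvd_prod_of_mem (fun q => q ^ (Nat.log q k + 1)) (Nat.mem_primesLE.mpr ⟨hcon, hp⟩)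
    exact this.mul_right _

theorem g_isLeast (k : ℕ) :
    IsLeast {n : ℕ | k + 1 < n ∧ ∀ p : ℕ, p.Prime → p ∣ n.choose k → k < p} (g k) :=
  ⟨Nat.sInf_mem (g_set_nonempty k), fun _ hn => Nat.sInf_le hn⟩

theorem g_pos (k : ℕ) : 0 < g k := by
  have := (g_isLeast k).1.1
  omega

theorem S_nonneg (k : ℕ) : 0 ≤ S k := by
  unfold S
  exact Finset.sum_nonneg fun q _ => mul_nonneg (phi_nonneg q k) (Real.log_natCast_nonneg q)

theorem log_le_sum (K X : ℕ) (hKX : K ≤ X) :
    Real.log ((X:ℝ) + 1) - Real.log ((K:ℝ) + 1) ≤ ∑ k ∈ Ico K X, 1 / ((k:ℝ) + 1) := by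
  induction X, hKX using Nat.le_induction with
  | base => simp
  | succ X hX ih =>
    rw [Finset.sum_Ico_succ_top hX]
    have h1 : Real.log (((X + 1 : ℕ) : ℝ) + 1) ≤ Real.log ((X:ℝ) + 1) + 1 / ((X:ℝ) + 1) := by
      have h2 := Real.log_le_sub_one_of_pos (show (0:ℝ) < (((X + 1 : ℕ) : ℝ) + 1) / ((X:ℝ) + 1) by positivity)
      rw [Real.log_div (by positivity) (by positivity)] at h2
      have h3 : (((X + 1 : ℕ) : ℝ) + 1) / ((X:ℝ) + 1) - 1 = 1 / ((X:ℝ) + 1) := by
        push_cast; field_simp; ring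
      linarith
    linarith

theorem freq_growth (ε : ℝ) (hε : 0 < ε) : ∃ᶠ k : ℕ in atTop, Real.log (g k) ≤ (cs + ε) * k := by
  intro hcon
  simp only [not_le] at hcon
  obtain ⟨K, hK⟩ := eventually_atTop.mp ((hcon.and (partA (ε / 2) (by positivity))).and
    (eventually_ge_atTop 1))
  have hS : ∀ k, K ≤ k → (cs + ε / 2) * k ≤ S k := by
    intro k hk
    obtain ⟨⟨h1, h2⟩, _⟩ := hK k hk
    linarith
  have hK1 : 1 ≤ K := (hK K le_rfl).2
  have hcs := cs_nonneg
  -- main inequality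
  have hmain : ∀ X : ℕ, K ≤ X → (cs + ε / 2) * (Real.log X - Real.log ((K:ℝ) + 1)) ≤
      cs * (Real.log X + Real.log 4) := by
    intro X hX
    have hX1 : 1 ≤ X := by omega
    have h1 := avg X hX1
    have h2 : ∑ k ∈ Ico K X, S k * om k ≤ ∑ k ∈ Icc 1 X, S k * om k := by
      refine Finset.sum_le_sum_of_subset_of_nonneg ?_ ?_
      · intro k hk
        rw [mem_Ico] at hk
        rw [mem_Icc]
        omega
      · intro k hk _
        exact mul_nonneg (S_nonneg k) (om_nonneg (mem_Icc.mp hk).1)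
    have h3 : (cs + ε / 2) * ∑ k ∈ Ico K X, 1 / ((k:ℝ) + 1) ≤ ∑ k ∈ Ico K X, S k * om k := by
      rw [Finset.mul_sum]
      refine Finset.sum_le_sum fun k hk => ?_
      rw [mem_Ico] at hk
      have hk0 : (0:ℝ) < k := by exact_mod_cast (by omega : 0 < k)
      have e1 : om k = 1 / (k:ℝ) * (1 / ((k:ℝ) + 1)) := by
        unfold om
        field_simp
        ring
      rw [e1]
      have h4 := hS k hk.1
      have h5 : 0 ≤ 1 / (k:ℝ) * (1 / ((k:ℝ) + 1)) := by positivity
      calc (cs + ε / 2) * (1 / ((k:ℝ) + 1)) = ((cs + ε / 2) * k) * (1 / (k:ℝ) * (1 / ((k:ℝ) + 1))) := by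
            field_simp
        _ ≤ _ := mul_le_mul_of_nonneg_right h4 h5
    have h6 := log_le_sum K X hX
    have h7 : Real.log X ≤ Real.log ((X:ℝ) + 1) :=
      Real.log_le_log (by exact_mod_cast hX1) (by linarith)
    have h8 : (cs + ε / 2) * (Real.log X - Real.log ((K:ℝ) + 1)) ≤
        (cs + ε / 2) * ∑ k ∈ Ico K X, 1 / ((k:ℝ) + 1) :=
      mul_le_mul_of_nonneg_left (by linarith) (by linarith)
    linarith
  have hlogt : Tendsto (fun k : ℕ => Real.log (k : ℝ)) atTop atTop :=
    Real.tendsto_log_atTop.comp tendsto_natCast_atTop_atTop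
  obtain ⟨X, hX⟩ := ((hlogt.eventually_gt_atTop
    (2 / ε * ((cs + ε / 2) * Real.log ((K:ℝ) + 1) + cs * Real.log 4))).and (eventually_ge_atTop K)).exists
  have h1 := hmain X hX.2
  have h2 := hX.1
  have h3 : (cs + ε / 2) * Real.log ((K:ℝ) + 1) + cs * Real.log 4 < ε / 2 * Real.log X := by
    have : 2 / ε * ((cs + ε / 2) * Real.log ((K:ℝ) + 1) + cs * Real.log 4) * (ε / 2) <
        Real.log X * (ε / 2) := mul_lt_mul_of_pos_right h2 (by positivity)
    have e : 2 / ε * ((cs + ε / 2) * Real.log ((K:ℝ) + 1) + cs * Real.log 4) * (ε / 2) =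
        (cs + ε / 2) * Real.log ((K:ℝ) + 1) + cs * Real.log 4 := by
      field_simp
    linarith
  nlinarith

/-- **Small ratios.** -/
theorem ratio (c : ℝ) (hc : Real.exp cs < c) : ∃ᶠ k : ℕ in atTop, (g (k + 1) : ℝ) < c * g k := by
  intro hcon
  simp only [not_lt] at hcon
  obtain ⟨K, hK⟩ := eventually_atTop.mp hcon
  have hc0 : 0 < c := lt_trans (Real.exp_pos _) hc
  have hlogc : cs < Real.log c := by
    rw [Real.lt_log_iff_exp_lt hc0]; exact hc
  set ε : ℝ := (Real.log c - cs) / 2 with hε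
  have hεpos : 0 < ε := by rw [hε]; linarith
  have hgrow : ∀ n : ℕ, c ^ n ≤ g (K + n) := by
    intro n
    induction n with
    | zero =>
      simp only [pow_zero, add_zero]
      exact_mod_cast g_pos K
    | succ n ih =>
      have h1 := hK (K + n) (by omega)
      calc c ^ (n + 1) = c * c ^ n := by ring
        _ ≤ c * g (K + n) := mul_le_mul_of_nonneg_left ih hc0.le
        _ ≤ g (K + n + 1) := h1
        _ = _ := by rw [add_assoc]
  have hlog : ∀ n : ℕ, n * Real.log c ≤ Real.log (g (K + n)) := by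
    intro n
    rw [← Real.log_pow]
    exact Real.log_le_log (by positivity) (hgrow n)
  have hfr := freq_growth ε hεpos
  obtain ⟨k, hk1, hk2⟩ := (hfr.and_eventually ((eventually_ge_atTop K).and
    ((tendsto_natCast_atTop_atTop (R := ℝ)).eventually_gt_atTop ((Real.log c * K) / ε)))).exists
  obtain ⟨n, rfl⟩ : ∃ n, k = K + n := ⟨k - K, by omega⟩
  have h1 := hlog n
  have h2 : n * Real.log c ≤ (cs + ε) * ((K + n : ℕ) : ℝ) := h1.trans hk1
  have h3 := hk2.2
  rw [div_lt_iff₀ hεpos] at h3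
  have h4 : cs + ε = Real.log c - ε := by rw [hε]; ring
  rw [h4] at h2
  push_cast at h2 h3
  nlinarith

theorem exp_cs_lt_two : Real.exp cs < 2 := by
  have h1 := Real.eulerMascheroniSeq_lt_eulerMascheroniConstant 31
  have h2 : (0.5615 : ℝ) < Real.eulerMascheroniSeq 31 := by
    unfold Real.eulerMascheroniSeq
    have e1 : Real.log ((31 : ℕ) + 1 : ℝ) = 5 * Real.log 2 := by
      rw [show ((31 : ℕ) + 1 : ℝ) = 2 ^ 5 by norm_num, Real.log_pow]; push_cast; ring
    have e2 : ((harmonic 31 : ℚ) : ℝ) > 4.02724 := by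
      have : harmonic 31 > 4.02724 := by
        norm_num [harmonic, Finset.sum_range_succ]
      have h := (Rat.cast_lt (K := ℝ)).mpr this
      push_cast at h
      linarith
    rw [e1]
    have := Real.log_two_lt_d9
    linarith
  have h3 : 0.4435 ≤ Real.log (Real.pi / 2) := by
    have hpi := Real.pi_gt_d2
    have h4 := Real.le_log_one_add_of_nonneg (show (0:ℝ) ≤ Real.pi / 2 - 1 by linarith)
    have e3 : 1 + (Real.pi / 2 - 1) = Real.pi / 2 := by ring
    rw [e3] at h4
    refine le_trans ?_ h4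
    rw [le_div_iff₀ (by linarith)]
    linarith
  have h5 : cs < Real.log 2 := by
    unfold cs
    have : Real.log (Real.pi / 4) = Real.log (Real.pi / 2) - Real.log 2 := by
      rw [← Real.log_div (by positivity) (by norm_num)]
      congr 1
      ring
    rw [this]
    linarith
  calc Real.exp cs < Real.exp (Real.log 2) := Real.exp_lt_exp.mpr h5
    _ = 2 := Real.exp_log (by norm_num)

end Pool.Agent.ESF
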