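import Pool.Agent.ESF.Crt

/-!
# ESF.Orth: orthogonality of the products `Psi`
-/

namespace Pool.Agent.ESF

open Finset

open Classical in
/-- hypotheses on the violation predicates of the first kind -/
structure Hyp (U : Finset ℕ) (v : ℕ → ℕ → Prop) (u : ℕ → ℝ) : Prop where
  prime : ∀ q ∈ U, q.Prime
  per : ∀ q ∈ U, ∀ t, v q (t + q) ↔ v q t
  nonneg : ∀ q ∈ U, 0 ≤ u q
  le_half : ∀ q ∈ U, u q ≤ 1 / 2
  count : ∀ q ∈ U, (((range q).filter (fun t => v q t)).card : ℝ) = u q * q

variable {U : Finset ℕ} {v : ℕ → ℕ → Prop} {u : ℕ → ℝ}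

theorem psi_per (h : Hyp U v u) {q : ℕ} (hq : q ∈ U) (t : ℕ) : psi v u q (t + q) = psi v u q t := by
  unfold psi
  by_cases hv : v q t
  · rw [if_pos hv, if_pos ((h.per q hq t).mpr hv)]
  · rw [if_neg hv, if_neg (fun h' => hv ((h.per q hq t).mp h'))]

theorem psi_abs_le (h : Hyp U v u) {q : ℕ} (hq : q ∈ U) (t : ℕ) : |psi v u q t| ≤ 1 := by
  have h0 := h.nonneg q hq
  have h1 := h.le_half q hq
  unfold psi
  split_ifs
  · simp
  · rw [abs_of_nonneg (div_nonneg h0 (by linarith)), div_le_one (by linarith)]
    linarith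

theorem psi_sum (h : Hyp U v u) {q : ℕ} (hq : q ∈ U) : ∑ t ∈ range q, psi v u q t = 0 := by
  classical
  have h1 := h.le_half q hq
  have hc := h.count q hq
  have hne : (1 - u q) ≠ 0 := by linarith
  unfold psi
  rw [Finset.sum_ite, Finset.sum_const, Finset.sum_const]
  have h2 : (((range q).filter (fun t => ¬ v q t)).card : ℝ) = q - u q * q := by
    have h3 := Finset.card_filter_add_card_filter_not (s := range q) (fun t => v q t)
    rw [card_range] at h3
    have h4 : (((range q).filter (fun t => v q t)).card : ℝ) +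
        (((range q).filter (fun t => ¬ v q t)).card : ℝ) = q := by exact_mod_cast h3
    linarith
  rw [nsmul_eq_mul, nsmul_eq_mul, h2]
  have hc' : (((range q).filter (fun t => v q t)).card : ℝ) = u q * q := by
    convert hc
  rw [hc']
  field_simp
  ring

theorem psi_sum_sq (h : Hyp U v u) {q : ℕ} (hq : q ∈ U) :
    ∑ t ∈ range q, psi v u q t * psi v u q t = q * (u q / (1 - u q)) := by
  classical
  have h1 := h.le_half q hq
  have hc := h.count q hq
  have hne : (1 - u q) ≠ 0 := by linarith
  have hsq : ∀ t, psi v u q t * psi v u q t = if v q t then 1 else (u q / (1 - u q)) ^ 2 := by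
    intro t
    unfold psi
    by_cases hv : v q t
    · simp [hv]
    · simp [hv]; ring
  simp only [hsq]
  rw [Finset.sum_ite, Finset.sum_const, Finset.sum_const]
  have h2 : (((range q).filter (fun t => ¬ v q t)).card : ℝ) = q - u q * q := by
    have h3 := Finset.card_filter_add_card_filter_not (s := range q) (fun t => v q t)
    rw [card_range] at h3
    have h4 : (((range q).filter (fun t => v q t)).card : ℝ) +
        (((range q).filter (fun t => ¬ v q t)).card : ℝ) = q := by exact_mod_cast h3
    linarith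
  rw [nsmul_eq_mul, nsmul_eq_mul, h2]
  have hc' : (((range q).filter (fun t => v q t)).card : ℝ) = u q * q := by
    convert hc
  rw [hc']
  field_simp
  ring

theorem Psi_per (h : Hyp U v u) {A : Finset ℕ} (hA : A ⊆ U) {P : ℕ} (hP : ∀ q ∈ A, q ∣ P) (t : ℕ) :
    Psi v u A (t + P) = Psi v u A t := by
  unfold Psi
  refine Finset.prod_congr rfl fun q hq => ?_
  obtain ⟨c, rfl⟩ := hP q hq
  exact per_mul (psi_per h (hA hq)) c t

theorem Psi_abs_le (h : Hyp U v u) {A : Finset ℕ} (hA : A ⊆ U) (t : ℕ) : |Psi v u A t| ≤ 1 := by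
  unfold Psi
  rw [Finset.abs_prod]
  exact Finset.prod_le_one (fun q _ => abs_nonneg _) fun q hq => psi_abs_le h (hA hq) t

/-- orthogonality -/
theorem Psi_orth (h : Hyp U v u) {A B : Finset ℕ} (hA : A ⊆ U) (hB : B ⊆ U) :
    ∑ t ∈ range (∏ q ∈ U, q), Psi v u A t * Psi v u B t =
      if A = B then ((∏ q ∈ U, q : ℕ) : ℝ) * w u A else 0 := by
  classical
  set f : ℕ → ℕ → ℝ := fun q t =>
    (if q ∈ A then psi v u q t else 1) * (if q ∈ B then psi v u q t else 1) with hf
  have h1 : ∀ t, Psi v u A t * Psi v u B t = ∏ q ∈ U, f q t := by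
    intro t
    unfold Psi
    rw [hf, Finset.prod_mul_distrib, Finset.prod_ite_mem, Finset.prod_ite_mem,
      Finset.inter_eq_right.mpr hA, Finset.inter_eq_right.mpr hB]
  simp only [h1]
  rw [sum_prod U h.prime f]
  · split_ifs with hAB
    · subst hAB
      have h2 : ∀ q ∈ U, ∑ t ∈ range q, f q t = (q : ℝ) * (if q ∈ A then u q / (1 - u q) else 1) := by
        intro q hq
        by_cases hqA : q ∈ A
        · simp only [hf, hqA, if_true]
          exact psi_sum_sq h hq
        · simp [hf, hqA]
      rw [Finset.prod_congr rfl h2, Finset.prod_mul_distrib, Finset.prod_ite_mem,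
        Finset.inter_eq_right.mpr hA]
      unfold w
      push_cast
      rfl
    · have h3 : ∃ q, (q ∈ A ∧ q ∉ B) ∨ (q ∉ A ∧ q ∈ B) := by
        by_contra hcon
        push Not at hcon
        apply hAB
        ext q
        have := hcon q
        constructor
        · exact fun hq => this.1 hq
        · intro hq
          by_contra hqA
          exact this.2 hqA hq
      obtain ⟨q, hq⟩ := h3
      have hqU : q ∈ U := by
        rcases hq with hq | hq
        · exact hA hq.1
        · exact hB hq.2
      apply Finset.prod_eq_zero hqU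
      rcases hq with hq | hq
      · simp only [hf, hq.1, hq.2, if_true, if_false, mul_one]
        exact psi_sum h hqU
      · simp only [hf, hq.1, hq.2, if_true, if_false, one_mul]
        exact psi_sum h hqU
  · intro q hq t
    simp only [hf, psi_per h hq]

end Pool.Agent.ESF
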