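import Pool.Agent.ESF.Tail

/-!
# ESF.Sieve: the sieve lemma
-/

namespace Pool.Agent.ESF

open Finset

variable {U : Finset ℕ} {v : ℕ → ℕ → Prop} {u : ℕ → ℝ}

open Classical in
/-- hypotheses on the violation predicates of the second kind -/
structure Hyp2 (U J : Finset ℕ) (v' : ℕ → ℕ → Prop) (a : ℕ → ℕ) : Prop where
  pos : ∀ j ∈ J, 0 < j
  per : ∀ j ∈ J, ∀ t, v' j (t + j ^ 2) ↔ v' j t
  shift : ∀ j ∈ J, ∀ t, ((range j).filter (fun i => v' j (t + (∏ q ∈ U, q) * i))).card = a j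

/-- indicator -/
noncomputable def ind (X : Prop) : ℝ := by
  classical exact if X then 1 else 0

theorem ind_of {X : Prop} (h : X) : ind X = 1 := by simp [ind, h]

theorem ind_not {X : Prop} (h : ¬ X) : ind X = 0 := by simp [ind, h]

theorem ind_nonneg (X : Prop) : 0 ≤ ind X := by
  by_cases h : X
  · rw [ind_of h]; exact zero_le_one
  · rw [ind_not h]

theorem ind_abs_le (X : Prop) : |ind X| ≤ 1 := by
  by_cases h : X
  · rw [ind_of h]; simp
  · rw [ind_not h]; simp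

theorem ind_congr {X Y : Prop} (h : X ↔ Y) : ind X = ind Y := by
  rw [propext h]

/-- the sum over the second kind of violations -/
theorem sum_shift2 {J : Finset ℕ} {v' : ℕ → ℕ → Prop} {a : ℕ → ℕ} (h2 : Hyp2 U J v' a)
    {j : ℕ} (hj : j ∈ J) {f : ℕ → ℝ} (hf : ∀ t, f (t + ∏ q ∈ U, q) = f t) {Pi : ℕ}
    (hQ : (∏ q ∈ U, q) ∣ Pi) (hj2 : j ^ 2 ∣ Pi) :
    (j : ℝ) * ∑ t ∈ range Pi, f t * ind (v' j t) = (a j : ℝ) * ∑ t ∈ range Pi, f t := by
  classical
  set Q := ∏ q ∈ U, q with hQdef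
  have hper : ∀ t, f (t + Pi) * ind (v' j (t + Pi)) = f t * ind (v' j t) := by
    intro t
    obtain ⟨c, rfl⟩ := hQ
    rw [per_mul hf]
    obtain ⟨e, he⟩ := hj2
    rw [he]
    have := per_mul (f := fun t => v' j t) (P := j ^ 2) (fun t => propext (h2.per j hj t)) e t
    rw [this]
  have h1 : ∀ i ∈ range j, ∑ t ∈ range Pi, f t * ind (v' j t) =
      ∑ t ∈ range Pi, f t * ind (v' j (t + Q * i)) := by
    intro i _
    rw [← sum_shift (f := fun t => f t * ind (v' j t)) hper (Q * i)]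
    refine Finset.sum_congr rfl fun t _ => ?_
    rw [per_mul hf]
  have h3 : (j : ℝ) * ∑ t ∈ range Pi, f t * ind (v' j t) =
      ∑ i ∈ range j, ∑ t ∈ range Pi, f t * ind (v' j (t + Q * i)) := by
    rw [← Finset.sum_congr rfl h1, Finset.sum_const, card_range, nsmul_eq_mul]
  rw [h3, Finset.sum_comm, Finset.mul_sum]
  refine Finset.sum_congr rfl fun t _ => ?_
  rw [← Finset.mul_sum, mul_comm]
  congr 1
  rw [← h2.shift j hj t, Finset.card_filter]
  push_cast
  refine Finset.sum_congr rfl fun i _ => ?_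
  by_cases hX : v' j (t + Q * i)
  · rw [ind_of hX, if_pos hX]
  · rw [ind_not hX, if_neg hX]

/-- one term of the expansion -/
theorem term {f : ℕ → ℝ} {P Pi M : ℕ} (hP : 0 < P) (hPi : 0 < Pi) (hdvd : P ∣ Pi) (hPM : P ≤ M)
    (hf : ∀ t, f (t + P) = f t) (hb : ∀ t, |f t| ≤ 1) (T : ℕ) :
    |∑ t ∈ range T, f t - (T : ℝ) * ((∑ t ∈ range Pi, f t) / Pi)| ≤ 2 * M := by
  obtain ⟨c, rfl⟩ := hdvd
  have hc : 0 < c := Nat.pos_of_ne_zero (fun h => by simp [h] at hPi)
  have h1 := sum_partial hP hf hb T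
  rw [sum_mul_period hf]
  have hP' : (0:ℝ) < P := by exact_mod_cast hP
  have hc' : (0:ℝ) < c := by exact_mod_cast hc
  have h2 : (c : ℝ) * (∑ t ∈ range P, f t) / ((P * c : ℕ) : ℝ) = (∑ t ∈ range P, f t) / P := by
    push_cast; field_simp
  rw [h2]
  refine h1.trans ?_
  have : (P : ℝ) ≤ M := by exact_mod_cast hPM
  linarith

/-- bound for the product of the primes of a small set -/
theorem prod_le_pow {A : Finset ℕ} {B n : ℕ} (hB : 1 ≤ B) (hA : ∀ q ∈ A, q ≤ B) (hn : A.card ≤ n) :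
    ∏ q ∈ A, q ≤ B ^ n :=
  (Finset.prod_le_pow_card A _ B hA).trans (Nat.pow_le_pow_right hB hn)

/-- the whole expansion for one predicate `X` -/
theorem piece (h : Hyp U v u) {B : ℕ} (hB : 1 ≤ B) (hUB : ∀ q ∈ U, q ≤ B) (d : ℕ)
    {X : ℕ → Prop} {P Pi : ℕ} (hP : 0 < P) (hPB : P ≤ B ^ 2) (hX : ∀ t, X (t + P) ↔ X t)
    (hPi : 0 < Pi) (hdvd : (∏ q ∈ U, q) * P ∣ Pi ∨ ∃ q ∈ U, P = q ∧ (∏ q ∈ U, q) ∣ Pi) (T : ℕ) :
    |∑ t ∈ range T, F v u U d t * F v u U d t * ind (X t) -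
      (T : ℝ) * ((∑ t ∈ range Pi, F v u U d t * F v u U d t * ind (X t)) / Pi)| ≤
      4 ^ U.card * (2 * (B : ℝ) ^ (2 * d + 2)) := by
  classical
  set 𝒜 := U.powerset.filter (fun A => A.card ≤ d) with h𝒜
  have hmem : ∀ A ∈ 𝒜, A ⊆ U ∧ A.card ≤ d := fun A hA =>
    ⟨mem_powerset.mp (mem_filter.mp hA).1, (mem_filter.mp hA).2⟩
  have hexp : ∀ t, F v u U d t * F v u U d t * ind (X t) =
      ∑ A ∈ 𝒜, ∑ C ∈ 𝒜, Psi v u A t * Psi v u C t * ind (X t) := by
    intro t
    unfold F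
    rw [Finset.sum_mul_sum, Finset.sum_mul]
    refine Finset.sum_congr rfl fun A _ => ?_
    rw [Finset.sum_mul]
  have hswap : ∀ K : ℕ, ∑ t ∈ range K, F v u U d t * F v u U d t * ind (X t) =
      ∑ A ∈ 𝒜, ∑ C ∈ 𝒜, ∑ t ∈ range K, Psi v u A t * Psi v u C t * ind (X t) := by
    intro K
    simp only [hexp]
    rw [Finset.sum_comm]
    refine Finset.sum_congr rfl fun A _ => ?_
    rw [Finset.sum_comm]
  rw [hswap, hswap, Finset.sum_div, Finset.mul_sum, ← Finset.sum_sub_distrib]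
  have hterm : ∀ A ∈ 𝒜, ∀ C ∈ 𝒜,
      |∑ t ∈ range T, Psi v u A t * Psi v u C t * ind (X t) -
        (T : ℝ) * ((∑ t ∈ range Pi, Psi v u A t * Psi v u C t * ind (X t)) / Pi)| ≤
        2 * (B : ℝ) ^ (2 * d + 2) := by
    intro A hA C hC
    have hAC : A ∪ C ⊆ U := Finset.union_subset (hmem A hA).1 (hmem C hC).1
    have hpos : 0 < ∏ q ∈ A ∪ C, q := Finset.prod_pos fun q hq => (h.prime q (hAC hq)).pos
    have hcard : (A ∪ C).card ≤ 2 * d := by
      have := Finset.card_union_le A C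
      have h1 := (hmem A hA).2
      have h2 := (hmem C hC).2
      omega
    have hple : ∏ q ∈ A ∪ C, q ≤ B ^ (2 * d) :=
      prod_le_pow hB (fun q hq => hUB q (hAC hq)) hcard
    have hdvdU : (∏ q ∈ A ∪ C, q) ∣ ∏ q ∈ U, q := Finset.prod_dvd_prod_of_subset _ _ _ hAC
    -- the period
    obtain ⟨P', hP'pos, hP'dvd, hP'le, hACdvd, hPdvd⟩ : ∃ P', 0 < P' ∧ P' ∣ Pi ∧
        P' ≤ B ^ (2 * d + 2) ∧ (∏ q ∈ A ∪ C, q) ∣ P' ∧ P ∣ P' := by
      rcases hdvd with hd | ⟨q, hq, hPq, hd⟩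
      · refine ⟨(∏ q ∈ A ∪ C, q) * P, Nat.mul_pos hpos hP, (Nat.mul_dvd_mul_right hdvdU P).trans hd,
          ?_, Dvd.intro _ rfl, Dvd.intro_left _ rfl⟩
        rw [pow_add]
        exact Nat.mul_le_mul hple hPB
      · refine ⟨∏ q ∈ insert q (A ∪ C), q, ?_, ?_, ?_, ?_, ?_⟩
        · exact Finset.prod_pos fun p hp => by
            rcases mem_insert.mp hp with rfl | hp
            · exact (h.prime p hq).pos
            · exact (h.prime p (hAC hp)).pos
        · refine (Finset.prod_dvd_prod_of_subset _ _ _ ?_).trans hd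
          exact Finset.insert_subset hq hAC
        · refine prod_le_pow hB (fun p hp => ?_) ?_
          · rcases mem_insert.mp hp with rfl | hp
            · exact hUB p hq
            · exact hUB p (hAC hp)
          · have := Finset.card_insert_le q (A ∪ C)
            omega
        · exact Finset.prod_dvd_prod_of_subset _ _ _ (Finset.subset_insert _ _)
        · rw [hPq]
          exact Finset.dvd_prod_of_mem (fun p => p) (mem_insert_self _ _)
    have hres := term (f := fun t => Psi v u A t * Psi v u C t * ind (X t)) (M := B ^ (2 * d + 2))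
      hP'pos hPi hP'dvd hP'le ?_ ?_ T
    · push_cast at hres
      exact hres
    · intro t
      rw [Psi_per h (hmem A hA).1 (P := P') (fun q hq => ?_),
        Psi_per h (hmem C hC).1 (P := P') (fun q hq => ?_)]
      · obtain ⟨c, hc⟩ := hPdvd
        rw [hc]
        have := per_mul (f := X) (P := P) (fun t => propext (hX t)) c t
        rw [this]
      · exact (Finset.dvd_prod_of_mem (fun p => p) (mem_union_right A hq)).trans hACdvd
      · exact (Finset.dvd_prod_of_mem (fun p => p) (mem_union_left C hq)).trans hACdvd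
    · intro t
      rw [abs_mul, abs_mul]
      have h1 := Psi_abs_le h (hmem A hA).1 t
      have h2 := Psi_abs_le h (hmem C hC).1 t
      have h3 := ind_abs_le (X t)
      calc |Psi v u A t| * |Psi v u C t| * |ind (X t)| ≤ 1 * 1 * 1 := by
            gcongr
        _ = 1 := by norm_num
  have hcard𝒜 : (𝒜.card : ℝ) ≤ 2 ^ U.card := by
    have : 𝒜.card ≤ U.powerset.card := Finset.card_filter_le _ _
    rw [Finset.card_powerset] at this
    exact_mod_cast this
  have hsq : (4 : ℝ) ^ U.card = 2 ^ U.card * 2 ^ U.card := by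
    rw [← mul_pow]; norm_num
  calc |∑ A ∈ 𝒜, (∑ C ∈ 𝒜, ∑ t ∈ range T, Psi v u A t * Psi v u C t * ind (X t) -
        (T : ℝ) * ((∑ C ∈ 𝒜, ∑ t ∈ range Pi, Psi v u A t * Psi v u C t * ind (X t)) / Pi))|
      ≤ ∑ A ∈ 𝒜, |∑ C ∈ 𝒜, ∑ t ∈ range T, Psi v u A t * Psi v u C t * ind (X t) -
        (T : ℝ) * ((∑ C ∈ 𝒜, ∑ t ∈ range Pi, Psi v u A t * Psi v u C t * ind (X t)) / Pi)| :=
        Finset.abs_sum_le_sum_abs _ _
    _ ≤ ∑ A ∈ 𝒜, (2 ^ U.card * (2 * (B : ℝ) ^ (2 * d + 2))) := by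
        refine Finset.sum_le_sum fun A hA => ?_
        rw [Finset.sum_div, Finset.mul_sum, ← Finset.sum_sub_distrib]
        calc _ ≤ ∑ C ∈ 𝒜, |∑ t ∈ range T, Psi v u A t * Psi v u C t * ind (X t) -
              (T : ℝ) * ((∑ t ∈ range Pi, Psi v u A t * Psi v u C t * ind (X t)) / Pi)| :=
              Finset.abs_sum_le_sum_abs _ _
          _ ≤ ∑ C ∈ 𝒜, 2 * (B : ℝ) ^ (2 * d + 2) := Finset.sum_le_sum fun C hC => hterm A hA C hC
          _ = 𝒜.card * (2 * (B : ℝ) ^ (2 * d + 2)) := by rw [Finset.sum_const, nsmul_eq_mul]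
          _ ≤ _ := mul_le_mul_of_nonneg_right hcard𝒜 (by positivity)
    _ = 𝒜.card * (2 ^ U.card * (2 * (B : ℝ) ^ (2 * d + 2))) := by
        rw [Finset.sum_const, nsmul_eq_mul]
    _ ≤ 2 ^ U.card * (2 ^ U.card * (2 * (B : ℝ) ^ (2 * d + 2))) :=
        mul_le_mul_of_nonneg_right hcard𝒜 (by positivity)
    _ = _ := by rw [hsq]; ring

/-- The sieve lemma. -/
theorem sieve (h : Hyp U v u) {J : Finset ℕ} {v' : ℕ → ℕ → Prop} {a : ℕ → ℕ}
    (h2 : Hyp2 U J v' a) {B : ℕ} (hB : 1 ≤ B) (hUB : ∀ q ∈ U, q ≤ B) (hJB : ∀ j ∈ J, j ≤ B) (d : ℕ)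
    (htail : U.card * Wgt u U d ≤ 1 / 4 * Wle u U d) (ha : ∑ j ∈ J, (a j : ℝ) / j ≤ 1 / 4) (T : ℕ)
    (hT : 4 ^ (U.card + 1) * (1 + U.card + J.card) * B ^ (2 * d + 2) < T) :
    ∃ t < T, (∀ q ∈ U, ¬ v q t) ∧ (∀ j ∈ J, ¬ v' j t) := by
  classical
  by_contra hcon
  push Not at hcon
  set Q := ∏ q ∈ U, q with hQ
  set Pi := Q * ∏ j ∈ J, j ^ 2 with hPidef
  have hQpos : 0 < Q := Finset.prod_pos fun q hq => (h.prime q hq).pos
  have hJpos : 0 < ∏ j ∈ J, j ^ 2 := Finset.prod_pos fun j hj => pow_pos (h2.pos j hj) 2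
  have hPi : 0 < Pi := Nat.mul_pos hQpos hJpos
  have hQdvd : Q ∣ Pi := Dvd.intro _ rfl
  set G : ℕ → ℝ := fun t => F v u U d t * F v u U d t with hG
  have hG0 : ∀ t, 0 ≤ G t := fun t => mul_self_nonneg _
  have hGper : ∀ t, G (t + Q) = G t := by
    intro t
    have : F v u U d (t + Q) = F v u U d t := by
      unfold F
      refine Finset.sum_congr rfl fun A hA => ?_
      have hAU := mem_powerset.mp (mem_filter.mp hA).1
      exact Psi_per h hAU (fun q hq => Finset.dvd_prod_of_mem (fun p => p) (hAU hq)) t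
    simp only [hG, this]
  set M : ℝ := 4 ^ U.card * (2 * (B : ℝ) ^ (2 * d + 2)) with hM
  -- lower bound for the main term
  have hmain : (T : ℝ) * ((∑ t ∈ range Pi, G t) / Pi) - M ≤ ∑ t ∈ range T, G t := by
    have := piece h hB hUB d (X := fun _ => True) (P := 1) (Pi := Pi) one_pos
      (Nat.one_le_pow _ _ hB) (fun _ => Iff.rfl) hPi (Or.inl (by rw [mul_one]; exact hQdvd)) T
    have e : ∀ t, F v u U d t * F v u U d t * ind True = G t := fun t => by
      rw [ind_of trivial, mul_one]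
    simp only [e] at this
    have := (abs_le.mp this).1
    linarith
  have hU1 : ∀ q ∈ U, ∑ t ∈ range T, G t * ind (v q t) ≤
      (T : ℝ) * ((∑ t ∈ range Pi, G t * ind (v q t)) / Pi) + M := by
    intro q hq
    have := piece h hB hUB d (X := fun t => v q t) (P := q) (Pi := Pi) (h.prime q hq).pos
      ((hUB q hq).trans (Nat.le_self_pow two_ne_zero _)) (h.per q hq) hPi
      (Or.inr ⟨q, hq, rfl, hQdvd⟩) T
    have := (abs_le.mp this).2
    linarith
  have hJ1 : ∀ j ∈ J, ∑ t ∈ range T, G t * ind (v' j t) ≤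
      (T : ℝ) * ((∑ t ∈ range Pi, G t * ind (v' j t)) / Pi) + M := by
    intro j hj
    have hj2 : j ^ 2 ∣ ∏ j ∈ J, j ^ 2 := Finset.dvd_prod_of_mem (fun j => j ^ 2) hj
    have := piece h hB hUB d (X := fun t => v' j t) (P := j ^ 2) (Pi := Pi)
      (pow_pos (h2.pos j hj) 2) (Nat.pow_le_pow_left (hJB j hj) 2) (h2.per j hj) hPi
      (Or.inl (Nat.mul_dvd_mul_left Q hj2)) T
    have := (abs_le.mp this).2
    linarith
  -- the contradiction hypothesis
  have hle : ∑ t ∈ range T, G t ≤ ∑ q ∈ U, ∑ t ∈ range T, G t * ind (v q t) +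
      ∑ j ∈ J, ∑ t ∈ range T, G t * ind (v' j t) := by
    rw [Finset.sum_comm, Finset.sum_comm (s := J), ← Finset.sum_add_distrib]
    refine Finset.sum_le_sum fun t ht => ?_
    rw [← Finset.mul_sum, ← Finset.mul_sum, ← mul_add]
    have hS1 : 0 ≤ ∑ q ∈ U, ind (v q t) := Finset.sum_nonneg fun q _ => ind_nonneg _
    have hS2 : 0 ≤ ∑ j ∈ J, ind (v' j t) := Finset.sum_nonneg fun q _ => ind_nonneg _
    have hge : 1 ≤ ∑ q ∈ U, ind (v q t) + ∑ j ∈ J, ind (v' j t) := by
      by_cases hv : ∀ q ∈ U, ¬ v q t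
      · obtain ⟨j, hj, hvj⟩ := hcon t (mem_range.mp ht) hv
        have := Finset.single_le_sum (f := fun j => ind (v' j t)) (fun j _ => ind_nonneg _) hj
        simp only [ind_of hvj] at this
        linarith
      · push Not at hv
        obtain ⟨q, hq, hvq⟩ := hv
        have := Finset.single_le_sum (f := fun q => ind (v q t)) (fun j _ => ind_nonneg _) hq
        simp only [ind_of hvq] at this
        linarith
    calc G t = G t * 1 := (mul_one _).symm
      _ ≤ _ := mul_le_mul_of_nonneg_left hge (hG0 t)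
  -- the averages over a full period
  have hPiR : (0:ℝ) < Pi := by exact_mod_cast hPi
  have hQR : (0:ℝ) < Q := by exact_mod_cast hQpos
  have hav : (∑ t ∈ range Pi, G t) / Pi = Wle u U d := by
    rw [hPidef, sum_mul_period hGper]
    have := sum_F_sq h d
    rw [← hQ] at this
    simp only [hG]
    rw [this]
    have hJR : (0:ℝ) < ((∏ j ∈ J, j ^ 2 : ℕ) : ℝ) := by exact_mod_cast hJpos
    push_cast
    push_cast at hJR
    field_simp
  have hav1 : ∀ q ∈ U, (∑ t ∈ range Pi, G t * ind (v q t)) / Pi ≤ Wgt u U d := by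
    intro q hq
    have hper : ∀ t, G (t + Q) * ind (v q (t + Q)) = G t * ind (v q t) := by
      intro t
      rw [hGper]
      obtain ⟨c, hc⟩ := Finset.dvd_prod_of_mem (fun p => p) hq
      have hc' : Q = q * c := hc
      rw [hc']
      have := per_mul (f := fun t => v q t) (P := q) (fun t => propext (h.per q hq t)) c t
      rw [this]
    rw [hPidef, sum_mul_period hper]
    have h3 := energy h d hq
    rw [← hQ] at h3
    have h4 : ∀ t, F v u U d t * F v u U d t * (if v q t then 1 else 0) = G t * ind (v q t) := by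
      intro t
      by_cases hX : v q t
      · rw [ind_of hX, if_pos hX]
      · rw [ind_not hX, if_neg hX]
    simp only [h4] at h3
    have hJR : (0:ℝ) < ((∏ j ∈ J, j ^ 2 : ℕ) : ℝ) := by exact_mod_cast hJpos
    rw [div_le_iff₀ (by push_cast; push_cast at hJR; positivity)]
    push_cast
    push_cast at hJR
    calc _ ≤ (∏ j ∈ J, (j:ℝ) ^ 2) * (Q * Wgt u U d) := mul_le_mul_of_nonneg_left h3 hJR.le
      _ = _ := by ring
  have hav2 : ∀ j ∈ J, (∑ t ∈ range Pi, G t * ind (v' j t)) / Pi = (a j : ℝ) / j * Wle u U d := by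
    intro j hj
    have hj2 : j ^ 2 ∣ Pi := (Finset.dvd_prod_of_mem (fun j => j ^ 2) hj).trans (Dvd.intro_left _ rfl)
    have h3 := sum_shift2 h2 hj hGper hQdvd hj2
    have hjR : (0:ℝ) < j := by exact_mod_cast h2.pos j hj
    have h4 : ∑ t ∈ range Pi, G t * ind (v' j t) = (a j : ℝ) / j * ∑ t ∈ range Pi, G t := by
      field_simp
      linarith
    rw [h4, mul_div_assoc, hav]
  have hW1 := one_le_Wle h d
  have hTR : (0:ℝ) ≤ T := Nat.cast_nonneg _
  -- combine
  have hsumU : ∑ q ∈ U, ∑ t ∈ range T, G t * ind (v q t) ≤ T * (U.card * Wgt u U d) + U.card * M := by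
    calc _ ≤ ∑ q ∈ U, (T * Wgt u U d + M) := by
          refine Finset.sum_le_sum fun q hq => (hU1 q hq).trans ?_
          have := mul_le_mul_of_nonneg_left (hav1 q hq) hTR
          linarith
      _ = _ := by rw [Finset.sum_const, nsmul_eq_mul]; ring
  have hsumJ : ∑ j ∈ J, ∑ t ∈ range T, G t * ind (v' j t) ≤
      T * ((∑ j ∈ J, (a j : ℝ) / j) * Wle u U d) + J.card * M := by
    calc _ ≤ ∑ j ∈ J, (T * ((a j : ℝ) / j * Wle u U d) + M) := by
          refine Finset.sum_le_sum fun j hj => (hJ1 j hj).trans ?_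
          rw [hav2 j hj]
      _ = _ := by
          rw [Finset.sum_add_distrib, Finset.sum_const, nsmul_eq_mul, Finset.sum_mul,
            Finset.mul_sum]
  rw [hav] at hmain
  have hfin : (T : ℝ) * Wle u U d - M ≤ T * (1 / 4 * Wle u U d) + U.card * M +
      (T * (1 / 4 * Wle u U d) + J.card * M) := by
    have e1 := mul_le_mul_of_nonneg_left htail hTR
    have e2 := mul_le_mul_of_nonneg_left (mul_le_mul_of_nonneg_right ha (by linarith : 0 ≤ Wle u U d)) hTR
    linarith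
  have hT2 : (T : ℝ) ≤ 2 * (1 + U.card + J.card) * M := by
    have e3 : (T : ℝ) * 1 ≤ T * Wle u U d := mul_le_mul_of_nonneg_left hW1 hTR
    linarith
  have hT3 : 2 * (1 + (U.card : ℝ) + J.card) * M =
      ((4 ^ (U.card + 1) * (1 + U.card + J.card) * B ^ (2 * d + 2) : ℕ) : ℝ) := by
    rw [hM]; push_cast; ring
  rw [hT3] at hT2
  have : T ≤ 4 ^ (U.card + 1) * (1 + U.card + J.card) * B ^ (2 * d + 2) := by exact_mod_cast hT2
  omega

end Pool.Agent.ESF
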