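import Pool.Agent.ESF.Energy

/-!
# ESF.Tail: the total weight of the large sets is small
-/

namespace Pool.Agent.ESF

open Finset

variable {U : Finset ℕ} {v : ℕ → ℕ → Prop} {u : ℕ → ℝ}

theorem sum_w (u : ℕ → ℝ) (U : Finset ℕ) (lam : ℝ) :
    ∑ A ∈ U.powerset, lam ^ A.card * w u A = ∏ q ∈ U, (lam * (u q / (1 - u q)) + 1) := by
  rw [Finset.prod_add_one]
  refine Finset.sum_congr rfl fun A _ => ?_
  unfold w
  rw [Finset.prod_mul_distrib, Finset.prod_const]

theorem Wtot (u : ℕ → ℝ) (U : Finset ℕ) (d : ℕ) :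
    Wle u U d + Wgt u U d = ∏ q ∈ U, (u q / (1 - u q) + 1) := by
  have h1 := sum_w u U 1
  simp only [one_pow, one_mul] at h1
  rw [← h1]
  unfold Wle Wgt
  have := Finset.sum_filter_add_sum_filter_not U.powerset (fun A => A.card ≤ d)
    (fun A => w u A)
  simpa only [not_le] using this

theorem tail_exp (h : Hyp U v u) (δ : ℝ) (hδ : 0 < δ) (hδ1 : δ ≤ 1) (C : ℝ) (hC : 0 ≤ C) (d : ℕ)
    (hd : ∑ q ∈ U, u q + δ * U.card + C ≤ d) :
    Wgt u U d ≤ Real.exp (-(δ ^ 2 * U.card / 4) - C * δ / 2) * (Wle u U d + Wgt u U d) := by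
  set N : ℝ := (U.card : ℝ) with hN
  set E : ℝ := ∑ q ∈ U, u q with hE
  have hE0 : 0 ≤ E := Finset.sum_nonneg h.nonneg
  have hEN : E ≤ N / 2 := by
    calc E ≤ ∑ q ∈ U, (1 / 2 : ℝ) := Finset.sum_le_sum h.le_half
      _ = N / 2 := by rw [Finset.sum_const, nsmul_eq_mul]; ring
  have hN0 : 0 ≤ N := Nat.cast_nonneg _
  -- step 1
  have h1 : (1 + δ) ^ d * Wgt u U d ≤ ∑ A ∈ U.powerset, (1 + δ) ^ A.card * w u A := by
    unfold Wgt
    rw [Finset.mul_sum]
    calc ∑ A ∈ U.powerset.filter (fun A => d < A.card), (1 + δ) ^ d * w u A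
        ≤ ∑ A ∈ U.powerset.filter (fun A => d < A.card), (1 + δ) ^ A.card * w u A := by
          refine Finset.sum_le_sum fun A hA => ?_
          have hA' := mem_filter.mp hA
          refine mul_le_mul_of_nonneg_right ?_ (w_nonneg h (mem_powerset.mp hA'.1))
          exact pow_le_pow_right₀ (by linarith) hA'.2.le
      _ ≤ _ := by
          refine Finset.sum_le_sum_of_subset_of_nonneg (Finset.filter_subset _ _) fun A hA _ => ?_
          exact mul_nonneg (by positivity) (w_nonneg h (mem_powerset.mp hA))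
  -- step 2
  have h2 : ∑ A ∈ U.powerset, (1 + δ) ^ A.card * w u A ≤
      Real.exp (δ * E) * (Wle u U d + Wgt u U d) := by
    rw [sum_w, Wtot]
    have h3 : ∀ q ∈ U, (1 + δ) * (u q / (1 - u q)) + 1 = (1 + δ * u q) * (u q / (1 - u q) + 1) := by
      intro q hq
      have h1 := h.le_half q hq
      have hne : (1 - u q) ≠ 0 := by linarith
      field_simp
      ring
    rw [Finset.prod_congr rfl h3, Finset.prod_mul_distrib]
    have h4 : ∏ q ∈ U, (1 + δ * u q) ≤ Real.exp (δ * E) := by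
      rw [hE, Finset.mul_sum, Real.exp_sum]
      refine Finset.prod_le_prod (fun q hq => ?_) fun q hq => ?_
      · have := h.nonneg q hq
        positivity
      · have := Real.add_one_le_exp (δ * u q)
        linarith
    refine mul_le_mul_of_nonneg_right h4 (Finset.prod_nonneg fun q hq => ?_)
    have h0 := h.nonneg q hq
    have h1 := h.le_half q hq
    have : 0 ≤ u q / (1 - u q) := div_nonneg h0 (by linarith)
    linarith
  have h5 : Real.exp (d * Real.log (1 + δ)) = (1 + δ) ^ d := by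
    rw [← Real.exp_log (show (0:ℝ) < 1 + δ by linarith), ← Real.exp_nat_mul,
      Real.exp_log (show (0:ℝ) < 1 + δ by linarith)]
  have hTot : 0 ≤ Wle u U d + Wgt u U d := by
    rw [Wtot]
    refine Finset.prod_nonneg fun q hq => ?_
    have h0 := h.nonneg q hq
    have h1 := h.le_half q hq
    have : 0 ≤ u q / (1 - u q) := div_nonneg h0 (by linarith)
    linarith
  have h6 : Wgt u U d ≤ Real.exp (δ * E - d * Real.log (1 + δ)) * (Wle u U d + Wgt u U d) := by
    have hpos : (0:ℝ) < (1 + δ) ^ d := by positivity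
    rw [Real.exp_sub, h5, div_mul_eq_mul_div, le_div_iff₀ hpos, mul_comm]
    exact h1.trans h2
  refine h6.trans (mul_le_mul_of_nonneg_right (Real.exp_le_exp.mpr ?_) hTot)
  -- exponent
  have hlog : δ - δ ^ 2 / 2 ≤ Real.log (1 + δ) := by
    have h7 := Real.le_log_one_add_of_nonneg hδ.le
    refine le_trans ?_ h7
    rw [le_div_iff₀ (by linarith)]
    nlinarith [pow_pos hδ 3]
  have hd0 : (0:ℝ) ≤ E + δ * N + C := by positivity
  have hl0 : 0 ≤ δ - δ ^ 2 / 2 := by nlinarith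
  have h8 : (E + δ * N + C) * (δ - δ ^ 2 / 2) ≤ d * Real.log (1 + δ) :=
    mul_le_mul hd hlog hl0 (Nat.cast_nonneg _)
  have h9 : 0 ≤ δ ^ 2 * (N / 2 - E) := by
    have : 0 ≤ N / 2 - E := by linarith
    positivity
  have h10 : 0 ≤ δ ^ 2 * N * (1 - δ) := by
    have : 0 ≤ 1 - δ := by linarith
    positivity
  have h11 : 0 ≤ C * δ * (1 - δ) := by
    have : 0 ≤ 1 - δ := by linarith
    positivity
  nlinarith

theorem tail (h : Hyp U v u) (δ : ℝ) (hδ : 0 < δ) (hδ1 : δ ≤ 1) (d : ℕ)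
    (hd : ∑ q ∈ U, u q + δ * U.card + 2 / δ * Real.log (32 / δ ^ 2) ≤ d) :
    U.card * Wgt u U d ≤ 1 / 4 * Wle u U d := by
  have hδ2 : 0 < δ ^ 2 := by positivity
  have hδ3 : δ ^ 2 ≤ 1 := by nlinarith
  have hlog : 0 ≤ Real.log (32 / δ ^ 2) := by
    apply Real.log_nonneg
    rw [le_div_iff₀ hδ2]
    linarith
  have h1 := tail_exp h δ hδ hδ1 (2 / δ * Real.log (32 / δ ^ 2)) (by positivity) d hd
  set N : ℝ := (U.card : ℝ) with hN
  have hN0 : 0 ≤ N := Nat.cast_nonneg _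
  have h2 : Real.exp (-(δ ^ 2 * N / 4) - 2 / δ * Real.log (32 / δ ^ 2) * δ / 2) ≤
      1 / (8 * (N + 1)) := by
    have e1 : 2 / δ * Real.log (32 / δ ^ 2) * δ / 2 = Real.log (32 / δ ^ 2) := by
      field_simp
    rw [e1, sub_eq_add_neg, Real.exp_add, Real.exp_neg, Real.exp_neg,
      Real.exp_log (by positivity), inv_div]
    have e2 : 1 + δ ^ 2 * N / 4 ≤ Real.exp (δ ^ 2 * N / 4) := by
      have := Real.add_one_le_exp (δ ^ 2 * N / 4)
      linarith
    have e3 : δ ^ 2 / 4 * (N + 1) ≤ Real.exp (δ ^ 2 * N / 4) := by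
      refine le_trans ?_ e2
      nlinarith
    have e4 : (Real.exp (δ ^ 2 * N / 4))⁻¹ ≤ (δ ^ 2 / 4 * (N + 1))⁻¹ :=
      inv_anti₀ (by positivity) e3
    calc (Real.exp (δ ^ 2 * N / 4))⁻¹ * (δ ^ 2 / 32) ≤ (δ ^ 2 / 4 * (N + 1))⁻¹ * (δ ^ 2 / 32) :=
          mul_le_mul_of_nonneg_right e4 (by positivity)
      _ = 1 / (8 * (N + 1)) := by field_simp; norm_num
  have hWle := one_le_Wle h d
  have hWgt : 0 ≤ Wgt u U d := by
    unfold Wgt
    exact Finset.sum_nonneg fun A hA => w_nonneg h (mem_powerset.mp (mem_filter.mp hA).1)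
  have h3 : Wgt u U d ≤ 1 / (8 * (N + 1)) * (Wle u U d + Wgt u U d) :=
    h1.trans (mul_le_mul_of_nonneg_right h2 (by linarith))
  have h4 : 8 * (N + 1) * Wgt u U d ≤ Wle u U d + Wgt u U d := by
    have hpos : (0:ℝ) < 8 * (N + 1) := by positivity
    rw [div_mul_eq_mul_div, one_mul, le_div_iff₀ hpos] at h3
    linarith
  nlinarith

end Pool.Agent.ESF
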